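import Mathlib
import Pool.Agent.V5helper62.BL.C3
set_option autoImplicit false

/-!
# Stein's restriction conjecture: block radial densities

Let `V_1, …, V_b` be pairwise orthogonal subspaces of `ℝ^n` of dimensions `d_i ≥ 2`, let `V_0` be
the orthogonal complement of their sum, `a = dim V_0`, and `P_i` the orthogonal projection onto
`V_i`. We consider densities `h` on the unit sphere which depend on `P_0 x, |P_1 x|, …, |P_b x|`
only (block radial densities: invariant under `O(V_1) × ⋯ × O(V_b)`), with no smoothness, and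
superpositions `g(x) = ∑_j e^{i⟨η_j, x⟩} h_j(x)` of modulated densities of this form, with blocks
depending on `j`, where `|h_j| ≤ M_j` and `∑ M_j < ∞`. Put `N = a + b ≥ 2`, the number of variables.

* For `N = 2` the Fourier transform of `g dσ` is in `L^q(ℝ^n)` for every `q > 2n/(n-1)`, the full
  conjectured range, with norm at most `C ∑ M_j`. This applies to the densities `h(|x'|, |x''|)`
  on the sphere of `ℝ^k × ℝ^l`, `k, l ≥ 2`.
* For every `N` this holds for `q > 2 + 4/(2n-N-1)`, for instance for the Reinhardt densities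
  `h(|z_1|, …, |z_m|)` on the sphere of `ℂ^m` for `q > 2 + 4/(3m-1)`.
* Every estimate `L^∞ → L^P` for the sphere of `ℝ^N` gives the estimate for these densities on the
  sphere of `ℝ^n` if `(q - 2)((n-N)/2 + 1/(P-2)) > 1`. In particular Stein's conjecture in `ℝ^N`
  implies it for these densities in the full range `q > 2n/(n-1)`.
-/

namespace Pool.Agent.Results.MP_6cbfb8_an.BlockRadialDensities

open MeasureTheory Set Metric Complex
open Pool.Agent.TH335.RF (RT mink stein_tomas)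
open Pool.Agent.V5helper62.BL
open Pool.Agent.H438R2.PD (T_meas' T_comp)
open Pool.Agent.H789R2.FR (E sg T sg_finite)
open scoped ENNReal RealInnerProductSpace

/-- surface measure on the unit sphere -/
noncomputable def sigma (n : ℕ) : Measure (sphere (0 : E n) 1) := (volume : Measure (E n)).toSphere

/-- the Fourier transform of the measure `g dσ` -/
noncomputable def ft {n : ℕ} (g : sphere (0 : E n) 1 → ℂ) (ξ : E n) : ℂ :=
  ∫ x, Complex.exp (-(2 * Real.pi * ⟪(x : E n), ξ⟫ : ℝ) * I) * g x ∂(sigma n)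

/-- Stein's estimate for the unit sphere of `ℝ^n` and the exponent `p`: the Fourier transform maps
densities bounded by one to a bounded subset of `L^p`. -/
def Stein (n : ℕ) (p : ℝ) : Prop := ∃ C : ℝ, ∀ g : sphere (0 : E n) 1 → ℂ, Measurable g →
  (∀ x, ‖g x‖ ≤ 1) → eLpNorm (ft g) (ENNReal.ofReal p) ≤ ENNReal.ofReal C

/-- The value `h(x)` depends only on the orthogonal projection of `x` to the orthogonal complement
of all the subspaces `V_i` and on the norms of the orthogonal projections of `x` to the `V_i`. -/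
def BlockRadial {n b : ℕ} (V : Fin b → Submodule ℝ (E n)) (h : E n → ℂ) : Prop :=
  ∀ x y : E n, (⨆ i, V i)ᗮ.starProjection x = (⨆ i, V i)ᗮ.starProjection y →
    (∀ i, ‖(V i).starProjection x‖ = ‖(V i).starProjection y‖) → h x = h y

/-- The density `g` on the unit sphere of `ℝ^n` is a superposition `∑_j e^{i⟨η_j, x⟩} h_j(x)`,
where `|h_j| ≤ M_j` and `h_j` is measurable and block radial for pairwise orthogonal subspaces
`V_{j,1}, …, V_{j,b}` of the dimensions `d_1, …, d_b`. -/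
def Superposition {n b : ℕ} (d : Fin b → ℕ) (M : ℕ → ℝ) (g : sphere (0 : E n) 1 → ℂ) : Prop :=
  ∃ (V : ℕ → Fin b → Submodule ℝ (E n)) (η : ℕ → E n) (h : ℕ → E n → ℂ),
    (∀ j i i', i ≠ i' → V j i ≤ (V j i')ᗮ) ∧ (∀ j i, Module.finrank ℝ (V j i) = d i) ∧
    (∀ j, BlockRadial (V j) (h j)) ∧ (∀ j, Measurable (h j)) ∧ (∀ j x, ‖h j x‖ ≤ M j) ∧
    ∀ᵐ x ∂(sigma n), g x = ∑' j, Complex.exp ((⟪η j, (x : E n)⟫ : ℝ) * I) * h j (x : E n)

/-- The estimate with exponent `q` for all the densities of this form. -/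
def Holds (n b : ℕ) (d : Fin b → ℕ) (q : ℝ) : Prop := ∃ C : ℝ, 0 < C ∧
  ∀ (M : ℕ → ℝ), Summable M → ∀ g : sphere (0 : E n) 1 → ℂ, Superposition d M g →
    MemLp (ft g) (ENNReal.ofReal q) ∧
    eLpNorm (ft g) (ENNReal.ofReal q) ≤ ENNReal.ofReal (C * ∑' j, M j)

/-! ### Proofs -/

theorem br_of_blockRadial {n b : ℕ} (d : Fin b → ℕ) (V : Fin b → Submodule ℝ (E n))
    (hV : ∀ i i', i ≠ i' → V i ≤ (V i')ᗮ) (hd : ∀ i, Module.finrank ℝ (V i) = d i)
    (h : E n → ℂ) (hh : BlockRadial V h) : h ∈ BR n b d := by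
  refine ⟨V, fun i j hij v hv w hw => ?_, hd, fun i v hv x => ?_⟩
  · have h1 := hV i j hij hv
    rw [real_inner_comm]
    exact (Submodule.mem_orthogonal _ _).1 h1 w hw
  · apply hh
    · have h1 : (⨆ i, V i)ᗮ.starProjection v = 0 := by
        rw [Submodule.starProjection_apply_eq_zero_iff, Submodule.orthogonal_orthogonal]
        exact le_iSup V i hv
      unfold rho
      rw [map_sub, map_smul, h1, smul_zero, sub_zero]
    · intro j
      by_cases hij : i = j
      · subst hij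
        have h1 : (V i).starProjection v = v := Submodule.starProjection_eq_self_iff.2 hv
        have h2 : (⟪v, x⟫ : ℝ) = ⟪v, (V i).starProjection x⟫ := by
          conv_lhs => rw [← h1]
          exact Submodule.inner_starProjection_left_eq_right _ _ _
        have h3 : (V i).starProjection (rho v x) = rho v ((V i).starProjection x) := by
          unfold rho
          rw [map_sub, map_smul, h1, h2]
        rw [h3, norm_rho]
      · have h1 : (V j).starProjection v = 0 := by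
          rw [Submodule.starProjection_apply_eq_zero_iff]
          exact hV i j hij hv
        unfold rho
        rw [map_sub, map_smul, h1, smul_zero, sub_zero]

theorem br_const_mul {n b : ℕ} (d : Fin b → ℕ) (h : E n → ℂ) (hh : h ∈ BR n b d) (c : ℂ) :
    (fun x => c * h x) ∈ BR n b d := by
  obtain ⟨V, h1, h2, h3⟩ := hh
  exact ⟨V, h1, h2, fun i v hv x => by simp only [h3 i v hv x]⟩

theorem ft_eq {n : ℕ} (g : sphere (0 : E n) 1 → ℂ) (G : E n → ℂ) (hG : Measurable G)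
    (Λ : E n ≃ₗᵢ[ℝ] E n) (hg : ∀ᵐ x ∂(sigma n), g x = G (Λ x)) (ξ : E n) :
    ft g ξ = T G ((2 * Real.pi) • Λ ξ) := by
  rw [← map_smul, ← T_comp]
  unfold T ft
  have m1 : Measurable fun w : E n =>
      Complex.exp (-((⟪(2 * Real.pi) • ξ, w⟫ : ℝ) : ℂ) * I) * G (Λ w) := by
    have h2 : Measurable fun z : E n => (⟪(2 * Real.pi) • ξ, z⟫ : ℝ) :=
      (by fun_prop : Continuous _).measurable
    exact (Complex.measurable_exp.comp ((Complex.measurable_ofReal.comp h2).neg.mul_const I)).mul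
      (hG.comp Λ.continuous.measurable)
  simp only [sg]
  rw [integral_map measurable_subtype_coe.aemeasurable m1.aestronglyMeasurable]
  apply integral_congr_ae
  filter_upwards [hg] with x hx
  rw [hx, real_inner_smul_left, real_inner_comm]

theorem scale {n : ℕ} (f : E n → ℝ≥0∞) (hf : Measurable f) :
    ∫⁻ ξ : E n, f ((2 * Real.pi) • ξ) =
      ENNReal.ofReal ((2 * Real.pi) ^ n)⁻¹ * ∫⁻ z, f z := by
  have h2pi : (2 * Real.pi) ≠ 0 := by positivity
  have h3 := Measure.map_addHaar_smul (volume : Measure (E n)) h2pi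
  have h4 : ∫⁻ x : E n, f x ∂(Measure.map ((2 * Real.pi) • · : E n → E n) volume) =
      ∫⁻ ξ : E n, f ((2 * Real.pi) • ξ) := lintegral_map hf (measurable_const_smul _)
  rw [← h4, h3, lintegral_smul_measure, smul_eq_mul, finrank_euclideanSpace_fin,
    abs_of_nonneg (by positivity)]

theorem TG_meas {n : ℕ} (G : E n → ℂ) (hG : Measurable G) (Λ : E n ≃ₗᵢ[ℝ] E n) :
    Measurable fun ξ : E n => T G ((2 * Real.pi) • Λ ξ) := by
  have hTm : Measurable (T G) := T_meas' G hG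
  have hm1 : Measurable fun ξ : E n => T G ((2 * Real.pi) • ξ) := by
    have h1 : Measurable fun x : E n => (2 * Real.pi) • x := measurable_const_smul _
    have h2 := Measurable.comp hTm h1
    exact h2
  have h2 := Measurable.comp hm1 Λ.continuous.measurable
  exact h2

theorem ft_int_le {n : ℕ} (q : ℝ) (g : sphere (0 : E n) 1 → ℂ) (G : E n → ℂ)
    (hG : Measurable G) (Λ : E n ≃ₗᵢ[ℝ] E n) (hg : ∀ᵐ x ∂(sigma n), g x = G (Λ x)) :
    Measurable (ft g) ∧ ∫⁻ ξ, ‖ft g ξ‖ₑ ^ q ≤ ∫⁻ z, ‖T G z‖ₑ ^ q := by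
  have hfun : ft g = fun ξ => T G ((2 * Real.pi) • Λ ξ) := funext fun ξ => ft_eq g G hG Λ hg ξ
  have hTm : Measurable (T G) := T_meas' G hG
  have hmeas : Measurable fun z => ‖T G z‖ₑ ^ q := hTm.enorm.pow_const q
  have hm1 : Measurable fun ξ : E n => ‖T G ((2 * Real.pi) • ξ)‖ₑ ^ q := by
    have h1 : Measurable fun x : E n => (2 * Real.pi) • x := measurable_const_smul _
    exact hmeas.comp h1
  refine ⟨by rw [hfun]; exact TG_meas G hG Λ, ?_⟩
  rw [hfun]
  have h1 : ∫⁻ ξ, ‖T G ((2 * Real.pi) • Λ ξ)‖ₑ ^ q = ∫⁻ ξ, ‖T G ((2 * Real.pi) • ξ)‖ₑ ^ q :=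
    Λ.measurePreserving.lintegral_comp hm1
  rw [h1, scale (fun z => ‖T G z‖ₑ ^ q) hmeas]
  have h5 : ENNReal.ofReal ((2 * Real.pi) ^ n)⁻¹ ≤ 1 := by
    rw [ENNReal.ofReal_le_one]
    apply inv_le_one_of_one_le₀
    apply one_le_pow₀
    linarith [Real.pi_gt_three]
  calc _ ≤ 1 * ∫⁻ z, ‖T G z‖ₑ ^ q := by gcongr
    _ = _ := one_mul _

theorem ft_mod {n : ℕ} (g : sphere (0 : E n) 1 → ℂ) (η ξ : E n) :
    ft (fun x => Complex.exp ((⟪η, (x : E n)⟫ : ℝ) * I) * g x) ξ =
      ft g (ξ - (2 * Real.pi)⁻¹ • η) := by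
  unfold ft
  refine integral_congr_ae (Filter.Eventually.of_forall fun x => ?_)
  simp only
  rw [← mul_assoc, ← Complex.exp_add, inner_sub_right, real_inner_smul_right,
    real_inner_comm (x : E n) η]
  have hpi := Real.pi_ne_zero
  congr 2
  push_cast
  field_simp
  ring

theorem rt_of_stein (n : ℕ) (P : ℝ) (hP : 0 < P) (h : Stein n P) : RT n P := by
  obtain ⟨C, hC⟩ := h
  set C' : ℝ := |C| + 1 with hC'
  have hC'0 : 0 < C' := by positivity
  have h2pi : 0 < (2 * Real.pi) ^ n := by positivity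
  refine ⟨(2 * Real.pi) ^ n * C' ^ P, by positivity, fun G hG hb => ?_⟩
  set g : sphere (0 : E n) 1 → ℂ := fun x => G x with hg
  have hgm : Measurable g := hG.comp measurable_subtype_coe
  have h1 := hC g hgm (fun x => hb _)
  have hfun : ft g = fun ξ => T G ((2 * Real.pi) • ξ) := by
    funext ξ
    have h2 := ft_eq g G hG (LinearIsometryEquiv.refl ℝ (E n)) (Filter.Eventually.of_forall
      fun x => rfl) ξ
    exact h2
  rw [eLpNorm_eq_lintegral_rpow_enorm_toReal (by simpa using hP) ENNReal.ofReal_ne_top,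
    ENNReal.toReal_ofReal hP.le, hfun] at h1
  have hmeas : Measurable fun z => ‖T G z‖ₑ ^ P := (T_meas' G hG).enorm.pow_const P
  rw [scale (fun z => ‖T G z‖ₑ ^ P) hmeas] at h1
  have h2 : ENNReal.ofReal ((2 * Real.pi) ^ n)⁻¹ * ∫⁻ z, ‖T G z‖ₑ ^ P ≤
      ENNReal.ofReal (C' ^ P) := by
    have h3 := ENNReal.rpow_le_rpow h1 hP.le
    rw [← ENNReal.rpow_mul, one_div_mul_cancel hP.ne', ENNReal.rpow_one] at h3
    refine h3.trans ?_
    rw [← ENNReal.ofReal_rpow_of_nonneg hC'0.le hP.le]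
    apply ENNReal.rpow_le_rpow _ hP.le
    apply ENNReal.ofReal_le_ofReal
    rw [hC']
    linarith [le_abs_self C]
  calc ∫⁻ z, ‖T G z‖ₑ ^ P = ENNReal.ofReal ((2 * Real.pi) ^ n) *
        (ENNReal.ofReal ((2 * Real.pi) ^ n)⁻¹ * ∫⁻ z, ‖T G z‖ₑ ^ P) := by
        rw [← mul_assoc, ← ENNReal.ofReal_mul h2pi.le, mul_inv_cancel₀ h2pi.ne',
          ENNReal.ofReal_one, one_mul]
    _ ≤ ENNReal.ofReal ((2 * Real.pi) ^ n) * ENNReal.ofReal (C' ^ P) := by gcongr
    _ = _ := by rw [← ENNReal.ofReal_mul h2pi.le]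

/-- one term of the superposition -/
theorem one_term (n : ℕ) (D : Set (E n → ℂ)) (hD : ∀ h ∈ D, ∀ c : ℂ, (fun x => c * h x) ∈ D)
    (q : ℝ) (hq : 0 < q) (C : ℝ) (hC : 0 < C)
    (hT : ∀ F ∈ D, Measurable F → (∀ y, ‖F y‖ ≤ 1) → ∫⁻ z, ‖T F z‖ₑ ^ q ≤ ENNReal.ofReal C)
    (η : E n) (F : E n → ℂ) (hFD : F ∈ D) (hFm : Measurable F) (M : ℝ) (hF : ∀ y, ‖F y‖ ≤ M) :
    Measurable (ft fun x : sphere (0 : E n) 1 => Complex.exp ((⟪η, (x : E n)⟫ : ℝ) * I) *
      F (x : E n)) ∧
    (∫⁻ ξ, ‖ft (fun x : sphere (0 : E n) 1 => Complex.exp ((⟪η, (x : E n)⟫ : ℝ) * I) *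
      F (x : E n)) ξ‖ₑ ^ q) ^ (1 / q) ≤ ENNReal.ofReal (C ^ (1 / q) * M) := by
  have hM0 : 0 ≤ M := (norm_nonneg _).trans (hF 0)
  -- normalised function
  set F' : E n → ℂ := fun y => ((M⁻¹ : ℝ) : ℂ) * F y with hF'
  have hF'm : Measurable F' := hFm.const_mul _
  have hF'D : F' ∈ D := hD F hFD _
  have hF'1 : ∀ y, ‖F' y‖ ≤ 1 := by
    intro y
    rw [hF']
    simp only [norm_mul, Complex.norm_real, Real.norm_of_nonneg (inv_nonneg.2 hM0)]
    rcases hM0.eq_or_lt with h0 | h0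
    · rw [← h0]; simp
    · rw [inv_mul_le_iff₀ h0, mul_one]
      exact hF _
  have hFF' : ∀ y, F y = (M : ℂ) * F' y := by
    intro y
    rw [hF']
    rcases hM0.eq_or_lt with h0 | h0
    · have h1 := hF y
      rw [← h0] at h1
      have h2 : F y = 0 := norm_le_zero_iff.1 h1
      simp [h2]
    · simp only
      rw [← mul_assoc, ← Complex.ofReal_mul, mul_inv_cancel₀ h0.ne', Complex.ofReal_one, one_mul]
  obtain ⟨hm1, hint⟩ := ft_int_le q (fun x : sphere (0 : E n) 1 => F' (x : E n)) F' hF'm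
    (LinearIsometryEquiv.refl ℝ (E n)) (Filter.Eventually.of_forall fun x => rfl)
  set g0 : sphere (0 : E n) 1 → ℂ := fun x => F' (x : E n) with hg0
  have hfun : ft (fun x : sphere (0 : E n) 1 =>
      Complex.exp ((⟪η, (x : E n)⟫ : ℝ) * I) * F (x : E n)) =
      fun ξ => (M : ℂ) * ft g0 (ξ - (2 * Real.pi)⁻¹ • η) := by
    funext ξ
    rw [← ft_mod]
    unfold ft
    rw [← integral_const_mul]
    refine integral_congr_ae (Filter.Eventually.of_forall fun x => ?_)
    simp only [hg0]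
    rw [hFF']
    ring
  have hsub : Measurable fun ξ : E n => ξ - (2 * Real.pi)⁻¹ • η :=
    measurable_id.sub_const _
  rw [hfun]
  refine ⟨(hm1.comp hsub).const_mul _, ?_⟩
  have h1 : ∫⁻ ξ, ‖(M : ℂ) * ft g0 (ξ - (2 * Real.pi)⁻¹ • η)‖ₑ ^ q ≤
      ENNReal.ofReal (M ^ q * C) := by
    calc ∫⁻ ξ, ‖(M : ℂ) * ft g0 (ξ - (2 * Real.pi)⁻¹ • η)‖ₑ ^ q
        = ∫⁻ ξ, ENNReal.ofReal (M ^ q) * ‖ft g0 (ξ - (2 * Real.pi)⁻¹ • η)‖ₑ ^ q := by
          refine lintegral_congr fun ξ => ?_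
          rw [enorm_mul, ENNReal.mul_rpow_of_nonneg _ _ hq.le, ← ofReal_norm (M : ℂ),
            Complex.norm_real, Real.norm_of_nonneg hM0, ENNReal.ofReal_rpow_of_nonneg hM0 hq.le]
      _ = ENNReal.ofReal (M ^ q) * ∫⁻ ξ, ‖ft g0 ξ‖ₑ ^ q := by
          rw [lintegral_const_mul' _ _ ENNReal.ofReal_ne_top]
          congr 1
          exact lintegral_sub_right_eq_self (fun ξ => ‖ft g0 ξ‖ₑ ^ q) ((2 * Real.pi)⁻¹ • η)
      _ ≤ ENNReal.ofReal (M ^ q) * ENNReal.ofReal C := by
          gcongr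
          exact hint.trans (hT F' hF'D hF'm hF'1)
      _ = _ := by rw [← ENNReal.ofReal_mul (by positivity)]
  refine (ENNReal.rpow_le_rpow h1 (by positivity)).trans (le_of_eq ?_)
  rw [ENNReal.ofReal_rpow_of_nonneg (by positivity) (by positivity),
    Real.mul_rpow (by positivity) hC.le, ← Real.rpow_mul hM0, mul_one_div_cancel hq.ne',
    Real.rpow_one, mul_comm]

/-- the superposition -/
theorem holds_of (n b : ℕ) (d : Fin b → ℕ) (q : ℝ) (hq : 1 ≤ q) (hT : RTC n (BR n b d) q) :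
    Holds n b d q := by
  have hq0 : 0 < q := by linarith
  obtain ⟨C, hC, hT⟩ := hT
  refine ⟨C ^ (1 / q), by positivity, ?_⟩
  rintro M hM g ⟨V, η, F, hV, hd, hFr, hFm, hF, hg⟩
  have hM0 : ∀ j, 0 ≤ M j := fun j => (norm_nonneg _).trans (hF j 0)
  set gj : ℕ → sphere (0 : E n) 1 → ℂ := fun j x =>
    Complex.exp ((⟪η j, (x : E n)⟫ : ℝ) * I) * F j (x : E n) with hgj
  have hone := fun j => one_term n (BR n b d) (fun h hh c => br_const_mul d h hh c) q hq0 C hC hT
    (η j) (F j) (br_of_blockRadial d (V j) (hV j) (hd j) (F j) (hFr j)) (hFm j) (M j) (hF j)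
  have hfin : IsFiniteMeasure (sigma n) := by unfold sigma; infer_instance
  have hgjm : ∀ j, Measurable (gj j) := by
    intro j
    have h1 : Measurable fun x : E n => Complex.exp ((⟪η j, x⟫ : ℝ) * I) * F j x := by
      refine Measurable.mul ?_ (hFm j)
      have h2 : Measurable fun x : E n => (⟪η j, x⟫ : ℝ) := by fun_prop
      exact Complex.measurable_exp.comp ((Complex.measurable_ofReal.comp h2).mul_const I)
    exact h1.comp measurable_subtype_coe
  have hgjb : ∀ j x, ‖gj j x‖ ≤ M j := by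
    intro j x
    rw [hgj]
    simp only [norm_mul, Complex.norm_exp_ofReal_mul_I, one_mul]
    exact hF j _
  have hsum : ∀ ξ, ft g ξ = ∑' j, ft (gj j) ξ := by
    intro ξ
    unfold ft
    have hen : ∀ (j : ℕ) (x : sphere (0 : E n) 1),
        ‖Complex.exp (-(2 * Real.pi * ⟪(x : E n), ξ⟫ : ℝ) * I) * gj j x‖ₑ ≤
          ENNReal.ofReal (M j) := by
      intro j x
      rw [← ofReal_norm]
      apply ENNReal.ofReal_le_ofReal
      have h3 : -(((2 * Real.pi * ⟪(x : E n), ξ⟫ : ℝ)) : ℂ) * I =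
          ((-(2 * Real.pi * ⟪(x : E n), ξ⟫) : ℝ) : ℂ) * I := by push_cast; ring
      rw [norm_mul, h3, Complex.norm_exp_ofReal_mul_I, one_mul]
      exact hgjb j x
    have hexm : Measurable fun x : sphere (0 : E n) 1 =>
        Complex.exp (-(2 * Real.pi * ⟪(x : E n), ξ⟫ : ℝ) * I) := by
      have h4 : Continuous fun x : sphere (0 : E n) 1 =>
        Complex.exp (-(2 * Real.pi * ⟪(x : E n), ξ⟫ : ℝ) * I) := by fun_prop
      exact h4.measurable
    rw [← integral_tsum]
    · refine integral_congr_ae ?_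
      filter_upwards [hg] with x hx
      rw [hx, ← tsum_mul_left]
    · exact fun j => (hexm.mul (hgjm j)).aestronglyMeasurable
    · have h5 : ∑' j, ∫⁻ x, ‖Complex.exp (-(2 * Real.pi * ⟪(x : E n), ξ⟫ : ℝ) * I) *
          gj j x‖ₑ ∂(sigma n) ≤ ∑' j, ENNReal.ofReal (M j) * sigma n univ := by
        apply ENNReal.tsum_le_tsum
        intro j
        calc _ ≤ ∫⁻ _x, ENNReal.ofReal (M j) ∂(sigma n) := lintegral_mono (hen j)
          _ = _ := by rw [lintegral_const]
      refine (h5.trans_lt ?_).ne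
      rw [ENNReal.tsum_mul_right, ← ENNReal.ofReal_tsum_of_nonneg hM0 hM]
      exact ENNReal.mul_lt_top ENNReal.ofReal_lt_top (measure_lt_top _ _)
  have hfun : ft g = fun ξ => ∑' j, ft (gj j) ξ := funext hsum
  have hmeas : Measurable (ft g) := by
    rw [hfun]
    exact Measurable.tsum fun j => (hone j).1
  have hle : ∫⁻ ξ, ‖ft g ξ‖ₑ ^ q ≤ (ENNReal.ofReal (C ^ (1 / q) * ∑' j, M j)) ^ q := by
    calc ∫⁻ ξ, ‖ft g ξ‖ₑ ^ q ≤ ∫⁻ ξ, (∑' j, ‖ft (gj j) ξ‖ₑ) ^ q := by
          apply lintegral_mono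
          intro ξ
          simp only
          rw [hsum]
          exact ENNReal.rpow_le_rpow enorm_tsum_le_tsum_enorm hq0.le
      _ ≤ (∑' j, (∫⁻ ξ, ‖ft (gj j) ξ‖ₑ ^ q) ^ (1 / q)) ^ q :=
          mink volume q hq (fun j ξ => ‖ft (gj j) ξ‖ₑ) fun j => (hone j).1.enorm
      _ ≤ (∑' j, ENNReal.ofReal (C ^ (1 / q) * M j)) ^ q :=
          ENNReal.rpow_le_rpow (ENNReal.tsum_le_tsum fun j => (hone j).2) hq0.le
      _ = _ := by
          rw [← ENNReal.ofReal_tsum_of_nonneg (fun j => mul_nonneg (by positivity) (hM0 j))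
            (hM.mul_left _), tsum_mul_left]
  have hnorm : eLpNorm (ft g) (ENNReal.ofReal q) ≤
      ENNReal.ofReal (C ^ (1 / q) * ∑' j, M j) := by
    rw [eLpNorm_eq_lintegral_rpow_enorm_toReal (by simpa using hq0) ENNReal.ofReal_ne_top,
      ENNReal.toReal_ofReal hq0.le]
    refine (ENNReal.rpow_le_rpow hle (by positivity)).trans (le_of_eq ?_)
    rw [← ENNReal.rpow_mul, mul_one_div_cancel hq0.ne', ENNReal.rpow_one]
  exact ⟨⟨hmeas.aestronglyMeasurable, hnorm.trans_lt ENNReal.ofReal_lt_top⟩, hnorm⟩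

theorem q_gt (A q : ℝ) (hA : 0 < A) (h : 1 < (q - 2) * A) : 1 ≤ q := by
  by_contra hc
  have : (q - 2) * A ≤ 0 := mul_nonpos_of_nonpos_of_nonneg (by linarith [not_le.1 hc]) hA.le
  linarith

/-- the exponent of the lower dimensional estimate -/
theorem exists_Q (A B q : ℝ) (hA : 0 ≤ A) (hB : 0 < B) (h : 1 < (q - 2) * (A + B)) :
    ∃ P : ℝ, 2 < P ∧ 1 / (P - 2) < B ∧ 1 < (q - 2) * (A + 1 / (P - 2)) := by
  have hq : 0 < q - 2 := by
    by_contra hc
    have : (q - 2) * (A + B) ≤ 0 :=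
      mul_nonpos_of_nonpos_of_nonneg (not_lt.1 hc) (by linarith)
    linarith
  have h1 : 1 / (q - 2) - A < B := by
    have h2 : 1 / (q - 2) < A + B := by
      rw [div_lt_iff₀ hq, mul_comm]
      exact h
    linarith
  obtain ⟨v, hv1, hv2⟩ := exists_between (max_lt h1 hB)
  have hv0 : 0 < v := lt_of_le_of_lt (le_max_right _ _) hv1
  have hv3 : 1 / (q - 2) - A < v := lt_of_le_of_lt (le_max_left _ _) hv1
  refine ⟨2 + 1 / v, by linarith [one_div_pos.2 hv0], ?_, ?_⟩
  · rw [add_sub_cancel_left, one_div_one_div]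
    exact hv2
  · rw [add_sub_cancel_left, one_div_one_div]
    have h4 : 1 / (q - 2) < A + v := by linarith
    rw [div_lt_iff₀ hq] at h4
    rw [mul_comm]
    exact h4

/-- **Theorem.** Block radial densities on the unit sphere of `ℝ^n`: `b ≥ 1` blocks of dimensions
`d_i ≥ 2`, and `a` further directions, `n = a + ∑ d_i` and `N = a + b ≥ 2`. The estimate with
exponent `q` holds in each of the following cases: `N = 2` and `q` is in the full conjectured range
`q > 2n/(n-1)`; `q > 2 + 4/(2n-N-1)`; Stein's estimate is true for the sphere of `ℝ^N` and some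
`P > 2` with `(q - 2)((n-N)/2 + 1/(P-2)) > 1`; Stein's conjecture is true in `ℝ^N` and
`q > 2n/(n-1)`. -/
theorem result (n a b : ℕ) (d : Fin b → ℕ) (hd : ∀ i, 2 ≤ d i) (hn : n = a + ∑ i, d i)
    (hb : 1 ≤ b) (N : ℕ) (hN : N = a + b) (hN2 : 2 ≤ N) (q : ℝ)
    (h : (N = 2 ∧ 2 * (n : ℝ) / (n - 1) < q) ∨
      2 + 4 / (2 * (n : ℝ) - N - 1) < q ∨
      (∃ P : ℝ, 2 < P ∧ Stein N P ∧ 1 < (q - 2) * (((n : ℝ) - N) / 2 + 1 / (P - 2))) ∨
      ((∀ P : ℝ, 2 * (N : ℝ) / (N - 1) < P → Stein N P) ∧ 2 * (n : ℝ) / (n - 1) < q)) :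
    Holds n b d q := by
  have hge := sum_ge d hd
  have hNn : N + 1 ≤ n := by omega
  have hNn' : (N : ℝ) + 1 ≤ n := by exact_mod_cast hNn
  have hN2' : (2 : ℝ) ≤ N := by exact_mod_cast hN2
  -- the conjectured range
  have hfull : 2 * (n : ℝ) / ((n : ℝ) - 1) < q → 1 < (q - 2) * (((n : ℝ) - 1) / 2) := by
    intro hq
    rw [div_lt_iff₀ (by linarith)] at hq
    nlinarith
  have hA : ∀ P : ℝ, 2 < P → RT N P → 1 < (q - 2) * (((n : ℝ) - N) / 2 + 1 / (P - 2)) →
      Holds n b d q := by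
    intro P hP hS h
    have hP2 : 0 < 1 / (P - 2) := one_div_pos.2 (by linarith)
    refine holds_of n b d q (q_gt _ q (by linarith) h) ?_
    subst hN
    refine claim b a n d hd hn hN2 P q hP hS ?_
    push_cast at h
    exact h
  rcases h with ⟨h2, hq⟩ | hq | ⟨P, hP, hS, h⟩ | ⟨hS, hq⟩
  · have h1 := hfull hq
    refine holds_of n b d q (q_gt _ q (by linarith) h1) ?_
    exact claim_two b a n d hd hn (by omega) hb q h1
  · have h2 : 0 < 2 * (n : ℝ) - N - 1 := by linarith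
    have h1 : 1 < (q - 2) * (((n : ℝ) - N) / 2 + ((N : ℝ) - 1) / 4) := by
      have h3 : 4 / (2 * (n : ℝ) - N - 1) < q - 2 := by linarith
      rw [div_lt_iff₀ h2] at h3
      nlinarith
    obtain ⟨P, hP, hPB, h2⟩ := exists_Q _ (((N : ℝ) - 1) / 4) q (by linarith) (by linarith) h1
    refine hA P hP (stein_tomas N hN2 P ?_) h2
    have hP2 : 0 < P - 2 := by linarith
    rw [div_lt_iff₀ hP2] at hPB
    rw [div_lt_iff₀ (by linarith)]
    nlinarith
  · exact hA P hP (rt_of_stein N P (by linarith) hS) h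
  · have h1 : 1 < (q - 2) * (((n : ℝ) - N) / 2 + ((N : ℝ) - 1) / 2) := by
      have := hfull hq
      have e1 : ((n : ℝ) - N) / 2 + ((N : ℝ) - 1) / 2 = ((n : ℝ) - 1) / 2 := by ring
      rwa [e1]
    obtain ⟨P, hP, hPB, h2⟩ := exists_Q _ (((N : ℝ) - 1) / 2) q (by linarith) (by linarith) h1
    refine hA P hP (rt_of_stein N P (by linarith) (hS P ?_)) h2
    have hP2 : 0 < P - 2 := by linarith
    rw [div_lt_iff₀ hP2] at hPB
    rw [div_lt_iff₀ (by linarith)]
    nlinarith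

end Pool.Agent.Results.MP_6cbfb8_an.BlockRadialDensities
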