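import Mathlib
import Pool.Agent.V5helper17.SR.Dy5
set_option autoImplicit false

/-!
# Stein's restriction conjecture in `ℝ³` for densities which are random in the longitude only

The point of the sphere `S² ⊂ ℝ³` with the colatitude `θ` and the longitude `φ` is
`(sin θ cos φ, sin θ sin φ, cos θ)`. Let `g_ω` be a random density on `S²`. Fix generations
`0 = N_0 < N_1 < N_2 < …`. For a fixed colatitude `θ`, the jump of `g_ω` from a dyadic arc `R` of
longitudes of generation `N_i` to a dyadic arc `R' ⊆ R` of generation `N_{i+1}` is the difference of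
the averages of `φ ↦ g_ω(θ, φ)` over `R'` and over `R`; it is a random function of `θ`. We assume
that the jumps are bounded by `M` and that for each `i` separately the arcs `R` of generation `N_i`
can be examined one after the other so that, given the jumps (for all colatitudes) found in the
earlier arcs, for each `θ` the jumps in the next arc have expectation zero. **There is no other
assumption on the dependence on the colatitude `θ`**, in which the density may be an arbitrary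
measurable function, and no assumption on the joint law of different generations.

Then the `p`-th power of the `L^p(ℝ³)` norm of the Fourier transform of the measure `g_ω dσ` has
expectation at most `C M^p` in the full range `p > 3` of Stein's conjecture, if the blocks
`N_{i+1} - N_i` are bounded, and for `p > 3 + 3δ` if `N_{i+1} ≤ (1+δ) N_i + K`.

For instance one may take any fixed bounded measurable density on the sphere and multiply the Haar
coefficients of its restrictions to the latitude circles by fair random signs, one sign for each arc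
of longitudes, independent within each generation only. So randomness in one of the two variables is
enough for the full range; the density is not smoothed in the other variable.
-/

namespace Pool.Agent.Results.MP_6cbfb8_an.FairLongitudes

open MeasureTheory Set Metric Complex ProbabilityTheory Filter
open scoped ENNReal RealInnerProductSpace

/-- the space `ℝ³` -/
abbrev E3 := EuclideanSpace ℝ (Fin 3)

/-- the unit sphere `S²` of `ℝ³` -/
abbrev S2 := sphere (0 : E3) 1

/-- the surface measure on `S²` -/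
noncomputable def sigma : Measure S2 := (volume : Measure E3).toSphere

/-- the Fourier transform of the measure `g dσ` -/
noncomputable def ft (g : S2 → ℂ) (ξ : E3) : ℂ :=
  ∫ x, Complex.exp (-(2 * Real.pi * ⟪(x : E3), ξ⟫ : ℝ) * I) * g x ∂sigma

/-- the vector `(sin θ cos φ, sin θ sin φ, cos θ)` -/
noncomputable def vec (θ φ : ℝ) : E3 :=
  !₂[Real.sin θ * Real.cos φ, Real.sin θ * Real.sin φ, Real.cos θ]

theorem vec_norm (θ φ : ℝ) : vec θ φ ∈ sphere (0 : E3) 1 := by
  rw [mem_sphere_zero_iff_norm, EuclideanSpace.norm_eq, Real.sqrt_eq_one, Fin.sum_univ_three]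
  simp only [vec, Real.norm_eq_abs, sq_abs]
  have h1 := Real.sin_sq_add_cos_sq θ
  have h2 := Real.sin_sq_add_cos_sq φ
  simp only [Matrix.cons_val_zero, Matrix.cons_val_one, Matrix.cons_val]
  linear_combination h1 + Real.sin θ ^ 2 * h2

/-- The point of the sphere with the colatitude `θ` and the longitude `φ`. -/
noncomputable def pt (θ φ : ℝ) : S2 := ⟨vec θ φ, vec_norm θ φ⟩

/-- The dyadic arc `(-π + 2π l/2^j, -π + 2π (l+1)/2^j]` of longitudes, of generation `j`, with the
number `l`, where `0 ≤ l < 2^j`. -/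
def arc (j l : ℕ) : Set ℝ :=
  Ioc (-Real.pi + 2 * Real.pi * l / 2 ^ j) (-Real.pi + 2 * Real.pi * ((l + 1 : ℕ) : ℝ) / 2 ^ j)

/-- The average of `g` over the points with the colatitude `θ` and with longitudes in the arc number
`l` of generation `j`. -/
noncomputable def mean (g : S2 → ℂ) (j l : ℕ) (θ : ℝ) : ℂ := ⨍ φ in arc j l, g (pt θ φ)

/-- The jump, for the colatitude `θ`, from the arc number `l` of generation `j` to the arc number
`l'` of generation `j'`: the average over the second one minus the average over the first one. -/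
noncomputable def jump (g : S2 → ℂ) (j l j' l' : ℕ) (θ : ℝ) : ℂ := mean g j' l' θ - mean g j l θ

/-- `l` is the number of an arc of generation `N i`, and `l'` is the number of an arc of generation
`N (i+1)` contained in it. -/
def InBlock (N : ℕ → ℕ) (i l l' : ℕ) : Prop :=
  l < 2 ^ N i ∧ l' < 2 ^ N (i + 1) ∧ arc (N (i + 1)) l' ⊆ arc (N i) l

/-- A random density with fair increments in the longitude. -/
structure Fair {Ω : Type} [mΩ : MeasurableSpace Ω] (P : Measure Ω) (M : ℝ) (N : ℕ → ℕ)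
    (g : Ω → S2 → ℂ) : Prop where
  /-- the density is a measurable function on the product of `Ω` and the sphere -/
  meas : Measurable fun q : Ω × S2 => g q.1 q.2
  /-- and every realisation is integrable; -/
  int : ∀ ω, Integrable (g ω) sigma
  /-- the average over almost every latitude circle is at most `M` -/
  avg : ∀ ω, ∀ᵐ θ ∂(volume.restrict (Ioo 0 Real.pi)), ‖mean (g ω) 0 0 θ‖ ≤ M
  /-- and the jumps are at most `M`; -/
  bound : ∀ ω i l l', InBlock N i l l' → ∀ᵐ θ ∂(volume.restrict (Ioo 0 Real.pi)),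
    ‖jump (g ω) (N i) l (N (i + 1)) l' θ‖ ≤ M
  /-- for each `i` there are a linear order `rank` of the arcs of generation `N i` and a filtration
  `F` such that the jumps out of the arc of rank `r`, as functions of `(ω, θ)`, are measurable with
  respect to `F (r+1)` and the Borel sets in `θ`, and for almost every `θ` they have conditional
  expectation zero given `F r` -/
  fair : ∀ i, ∃ (F : Filtration ℕ mΩ) (rank : ℕ → ℕ), InjOn rank {l | l < 2 ^ N i} ∧
    ∀ l l', InBlock N i l l' →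
      (Measurable[(F (rank l + 1)).prod inferInstance]
        fun q : Ω × ℝ => jump (g q.1) (N i) l (N (i + 1)) l' q.2) ∧
      ∀ᵐ θ ∂(volume.restrict (Ioo 0 Real.pi)),
        P[fun ω => jump (g ω) (N i) l (N (i + 1)) l' θ | F (rank l)] =ᵐ[P] 0

/-! ### Proofs -/

open Pool.Agent.H789R2.FR (sg T sg_finite sc)
open Pool.Agent.V5helper17.SR (Pt Rb Db av sl ar da jm ar_anc ar_anc_lt J3_zero J3_one J3_two
  cs_zero cs_one')

lemma lintegral_sg (f : E3 → ℝ≥0∞) (hf : Measurable f) :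
    ∫⁻ x, f x ∂(sg 3) = ∫⁻ x : S2, f (x : E3) ∂sigma := by
  rw [sg, lintegral_map hf measurable_subtype_coe]
  rfl

lemma integral_sg (f : E3 → ℂ) (hf : AEStronglyMeasurable f (sg 3)) :
    ∫ x, f x ∂(sg 3) = ∫ x : S2, f (x : E3) ∂sigma := by
  rw [sg] at hf ⊢
  rw [integral_map measurable_subtype_coe.aemeasurable hf]
  rfl

/-- extension by zero to the whole space -/
noncomputable def ext (h : S2 → ℂ) : E3 → ℂ := Function.extend Subtype.val h 0

theorem ext_coe (h : S2 → ℂ) (x : S2) : ext h (x : E3) = h x :=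
  Subtype.val_injective.extend_apply _ _ _

theorem ext_off (h : S2 → ℂ) {x : E3} (hx : ‖x‖ ≠ 1) : ext h x = 0 := by
  unfold ext
  rw [Function.extend_apply']
  · rfl
  · rintro ⟨y, rfl⟩
    apply hx
    simp

theorem ext_joint {Ω : Type} [MeasurableSpace Ω] (g : Ω → S2 → ℂ)
    (hg : Measurable fun q : Ω × S2 => g q.1 q.2) :
    Measurable fun q : Ω × E3 => ext (g q.1) q.2 := by
  have hemb : MeasurableEmbedding (Prod.map id Subtype.val : Ω × S2 → Ω × E3) :=
    MeasurableEmbedding.id.prodMap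
      (MeasurableEmbedding.subtype_coe isClosed_sphere.measurableSet)
  have h1 := hemb.measurable_extend hg (g' := fun _ : Ω × E3 => (0 : ℂ)) measurable_const
  convert h1 using 1
  funext q
  by_cases hq : ‖q.2‖ = 1
  · have e : q = Prod.map id Subtype.val (q.1, (⟨q.2, by simpa using hq⟩ : S2)) := rfl
    rw [e, hemb.injective.extend_apply]
    exact ext_coe (g q.1) ⟨q.2, by simpa using hq⟩
  · rw [ext_off _ hq, Function.extend_apply']
    rintro ⟨y, rfl⟩
    apply hq
    simp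

theorem ext_meas (h : S2 → ℂ) (hh : Measurable h) : Measurable (ext h) :=
  (MeasurableEmbedding.subtype_coe isClosed_sphere.measurableSet).measurable_extend
      hh measurable_zero

theorem ft_T (h : S2 → ℂ) (hh : Measurable h) (ξ : E3) :
    ft h ξ = T (ext h) ((2 * Real.pi) • ξ) := by
  rw [T]
  have hc : Measurable fun w : E3 =>
      Complex.exp (-((⟪(2 * Real.pi) • ξ, w⟫ : ℝ) : ℂ) * I) * ext h w := by
    refine Measurable.mul ?_ (ext_meas h hh)
    have : Continuous fun w : E3 => Complex.exp (-((⟪(2 * Real.pi) • ξ, w⟫ : ℝ) : ℂ) * I) := by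
      fun_prop
    exact this.measurable
  rw [integral_sg _ hc.aestronglyMeasurable]
  unfold ft
  refine integral_congr_ae (Filter.Eventually.of_forall fun x => ?_)
  simp only
  rw [ext_coe, real_inner_smul_left, real_inner_comm]

theorem lint_scale (f : E3 → ℝ≥0∞) (hf : Measurable f) :
    ∫⁻ ξ, f ((2 * Real.pi) • ξ) ≤ ∫⁻ x, f x := by
  have h2pi : (2 * Real.pi) ≠ 0 := by positivity
  have h3 := Measure.map_addHaar_smul (volume : Measure E3) h2pi
  have h4 : ∫⁻ x : E3, f x ∂(Measure.map ((2 * Real.pi) • · : E3 → E3) volume) =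
      ∫⁻ ξ : E3, f ((2 * Real.pi) • ξ) :=
    lintegral_map hf (measurable_const_smul _)
  rw [h3, lintegral_smul_measure] at h4
  rw [← h4, smul_eq_mul]
  calc ENNReal.ofReal |((2 * Real.pi) ^ Module.finrank ℝ E3)⁻¹| * ∫⁻ x, f x
      ≤ 1 * ∫⁻ x, f x := by
        gcongr
        rw [← ENNReal.ofReal_one]
        refine ENNReal.ofReal_le_ofReal ?_
        rw [abs_of_pos (by positivity)]
        refine inv_le_one_of_one_le₀ (one_le_pow₀ ?_)
        linarith [Real.pi_gt_three]
    _ = _ := one_mul _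

/-- the two parametrisations of the sphere -/
theorem Pt_eq {c : ℝ} (hc : c ∈ Icc (-1 : ℝ) 1) (φ : ℝ) :
    (Pt c φ : E3) = ((pt (Real.arccos c) φ : S2) : E3) := by
  have h1 : sc c = Real.sin (Real.arccos c) := by
    unfold sc
    rw [Real.sin_arccos]
  have h2 : Real.cos (Real.arccos c) = c := Real.cos_arccos hc.1 hc.2
  unfold Pt
  ext i
  fin_cases i
  · change (Pool.Agent.H438R2.BR.J (sc c • Pool.Agent.V5helper17.SR.cs φ)
      (c • Pool.Agent.H438R2.BR.T10.e0) : E3) 0 = (pt (Real.arccos c) φ : E3) 0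
    rw [J3_zero, PiLp.smul_apply, cs_zero, h1]
    simp [pt, vec]
  · change (Pool.Agent.H438R2.BR.J (sc c • Pool.Agent.V5helper17.SR.cs φ)
      (c • Pool.Agent.H438R2.BR.T10.e0) : E3) 1 = (pt (Real.arccos c) φ : E3) 1
    rw [J3_one, PiLp.smul_apply, cs_one', h1]
    simp [pt, vec]
  · change (Pool.Agent.H438R2.BR.J (sc c • Pool.Agent.V5helper17.SR.cs φ)
      (c • Pool.Agent.H438R2.BR.T10.e0) : E3) 2 = (pt (Real.arccos c) φ : E3) 2
    rw [J3_two, PiLp.smul_apply, Pool.Agent.TH335.RF.e0_zero]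
    simp [pt, vec, h2]

theorem Pt_off {c : ℝ} (hc : c ∉ Icc (-1 : ℝ) 1) (φ : ℝ) : ‖(Pt c φ : E3)‖ ≠ 1 := by
  intro h
  have h1 : |(Pt c φ : E3) 2| ≤ ‖(Pt c φ : E3)‖ := by
    rw [← Real.norm_eq_abs]
    exact PiLp.norm_apply_le _ _
  have h2 : (Pt c φ : E3) 2 = c := by
    unfold Pt
    rw [J3_two, PiLp.smul_apply, Pool.Agent.TH335.RF.e0_zero, smul_eq_mul, mul_one]
  rw [h2, h] at h1
  exact hc (abs_le.1 h1)

theorem arc_eq (j l : ℕ) : arc j l = ar j l := rfl

theorem av_in (g : S2 → ℂ) (j l : ℕ) {c : ℝ} (hc : c ∈ Icc (-1 : ℝ) 1) :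
    av (sl (ext g) c) j l = mean g j l (Real.arccos c) := by
  unfold av mean
  rw [arc_eq]
  congr 1
  funext φ
  unfold sl
  rw [Pt_eq hc, ext_coe]

theorem av_out (g : S2 → ℂ) (j l : ℕ) {c : ℝ} (hc : c ∉ Icc (-1 : ℝ) 1) :
    av (sl (ext g) c) j l = 0 := by
  unfold av
  have : sl (ext g) c = fun _ => 0 := by
    funext φ
    unfold sl
    exact ext_off g (Pt_off hc φ)
  rw [this]
  simp

theorem jm_eq (g : S2 → ℂ) (N N' k : ℕ) (c : ℝ) : jm (sl (ext g) c) N N' k =
    (Icc (-1 : ℝ) 1).indicator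
      (fun c => jump g N (k / 2 ^ (N' - N)) N' k (Real.arccos c)) c := by
  unfold jm jump
  by_cases hc : c ∈ Icc (-1 : ℝ) 1
  · rw [indicator_of_mem hc, av_in g _ _ hc, av_in g _ _ hc]
  · rw [indicator_of_notMem hc, av_out g _ _ hc, av_out g _ _ hc, sub_zero]

/-- null sets of colatitudes and of heights -/
theorem arccos_ae {p : ℝ → Prop} (h : ∀ᵐ θ ∂(volume.restrict (Ioo 0 Real.pi)), p θ) :
    ∀ᵐ c ∂(volume.restrict (Ioo (-1 : ℝ) 1)), p (Real.arccos c) := by
  rw [ae_restrict_iff' measurableSet_Ioo] at h ⊢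
  rw [ae_iff] at h ⊢
  refine measure_mono_null ?_ (addHaar_image_eq_zero_of_differentiableOn_of_addHaar_eq_zero volume
    (f := Real.cos) (Real.differentiable_cos.differentiableOn) h)
  intro c hc
  have hc' : ¬ (c ∈ Ioo (-1 : ℝ) 1 → p (Real.arccos c)) := hc
  push Not at hc'
  obtain ⟨h1, h2⟩ := hc'
  refine ⟨Real.arccos c, ?_, Real.cos_arccos h1.1.le h1.2.le⟩
  intro h3
  exact h2 (h3 ⟨Real.arccos_pos.2 h1.2, Real.arccos_lt_pi.2 h1.1⟩)

theorem inBlock {N : ℕ → ℕ} (hN : ∀ i, N i ≤ N (i + 1)) (i : ℕ) (k : Fin (2 ^ N (i + 1))) :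
    InBlock N i (k / 2 ^ (N (i + 1) - N i)) k :=
  ⟨ar_anc_lt (hN i) k, k.2, fun _ hφ => ar_anc (hN i) hφ⟩

theorem Fair.rb {Ω : Type} [mΩ : MeasurableSpace Ω] {P : Measure Ω} {M : ℝ} {N : ℕ → ℕ}
    {g : Ω → S2 → ℂ} (hg : Fair P M N g) (hN : ∀ i, N i ≤ N (i + 1)) :
    Rb P M N fun ω => ext (g ω) := by
  have hgm : ∀ ω, Measurable (g ω) := fun ω => hg.meas.comp measurable_prodMk_left
  refine ⟨ext_joint g hg.meas, fun ω => ⟨ext_meas _ (hgm ω), ?_, ?_, fun i k => ?_⟩, fun i => ?_⟩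
  · refine ⟨(ext_meas _ (hgm ω)).aestronglyMeasurable, ?_⟩
    have h1 := (hg.int ω).2
    unfold HasFiniteIntegral at h1 ⊢
    rw [lintegral_sg _ (ext_meas _ (hgm ω)).enorm]
    simp only [ext_coe]
    exact h1
  · filter_upwards [arccos_ae (hg.avg ω), ae_restrict_mem measurableSet_Ioo] with c h1 h2
    rw [av_in (g ω) 0 0 (Ioo_subset_Icc_self h2)]
    exact h1
  · filter_upwards [arccos_ae (hg.bound ω i _ _ (inBlock hN i k)),
      ae_restrict_mem measurableSet_Ioo] with c h1 h2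
    rw [jm_eq, indicator_of_mem (Ioo_subset_Icc_self h2)]
    exact h1
  · obtain ⟨F, rank, hinj, hf⟩ := hg.fair i
    refine ⟨F, rank, hinj, fun k => ?_⟩
    obtain ⟨h1, h2⟩ := hf _ _ (inBlock hN i k)
    constructor
    · have e : (fun q : Ω × ℝ => jm (sl (ext (g q.1)) q.2) (N i) (N (i + 1)) k) =
          (Prod.snd ⁻¹' Icc (-1 : ℝ) 1).indicator (fun q : Ω × ℝ => jump (g q.1) (N i)
            (k / 2 ^ (N (i + 1) - N i)) (N (i + 1)) k (Real.arccos q.2)) := by
        funext q
        rw [jm_eq]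
        by_cases hq : q.2 ∈ Icc (-1 : ℝ) 1
        · rw [indicator_of_mem hq,
            indicator_of_mem (show q ∈ Prod.snd ⁻¹' Icc (-1 : ℝ) 1 from hq)]
        · rw [indicator_of_notMem hq,
            indicator_of_notMem (show q ∉ Prod.snd ⁻¹' Icc (-1 : ℝ) 1 from hq)]
      rw [e]
      have key : ∀ (m : MeasurableSpace Ω) (f : Ω × ℝ → ℂ), Measurable[m.prod inferInstance] f →
          Measurable[m.prod inferInstance] ((Prod.snd ⁻¹' Icc (-1 : ℝ) 1).indicator
            (fun q : Ω × ℝ => f (q.1, Real.arccos q.2))) := by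
        intro m f hf
        have h3 : @Measurable (Ω × ℝ) (Ω × ℝ) (m.prod inferInstance) (m.prod inferInstance)
            (fun q => (q.1, Real.arccos q.2)) :=
          (@measurable_fst Ω ℝ m _).prodMk (Real.measurable_arccos.comp (@measurable_snd Ω ℝ m _))
        exact (hf.comp h3).indicator ((@measurable_snd Ω ℝ m _) measurableSet_Icc)
      exact key (F (rank (k / 2 ^ (N (i + 1) - N i)) + 1)) _ h1
    · filter_upwards [arccos_ae h2, ae_restrict_mem measurableSet_Ioo] with c h3 h4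
      have e : (fun ω => jm (sl (ext (g ω)) c) (N i) (N (i + 1)) k) = fun ω =>
          jump (g ω) (N i) (k / 2 ^ (N (i + 1) - N i)) (N (i + 1)) k (Real.arccos c) := by
        funext ω
        rw [jm_eq, indicator_of_mem (Ioo_subset_Icc_self h4)]
      rw [e]
      exact h3

theorem T_joint' {Ω : Type} [MeasurableSpace Ω] (f : Ω → E3 → ℂ)
    (hf : Measurable fun q : Ω × E3 => f q.1 q.2) :
    Measurable fun q : Ω × E3 => T (f q.1) q.2 := by
  have hfin : IsFiniteMeasure (sg 3) := sg_finite _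
  unfold T
  apply StronglyMeasurable.measurable
  apply StronglyMeasurable.integral_prod_right
    (f := fun (q : Ω × E3) (z : E3) => Complex.exp (-((⟪q.2, z⟫ : ℝ) : ℂ) * I) * f q.1 z)
  apply Measurable.stronglyMeasurable
  change Measurable fun p : (Ω × E3) × E3 =>
    Complex.exp (-((⟪p.1.2, p.2⟫ : ℝ) : ℂ) * I) * f p.1.1 p.2
  have h1 : Measurable fun p : (Ω × E3) × E3 => f p.1.1 p.2 :=
    Measurable.comp (g := fun q : Ω × E3 => f q.1 q.2)
      (f := fun p : (Ω × E3) × E3 => (p.1.1, p.2)) hf (by fun_prop)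
  have h0 : Measurable fun p : (Ω × E3) × E3 => (p.1.2, p.2) := by fun_prop
  have h2 : Measurable fun p : (Ω × E3) × E3 => (⟪p.1.2, p.2⟫ : ℝ) :=
    (continuous_inner (𝕜 := ℝ)).measurable.comp h0
  have h3 : Measurable fun p : (Ω × E3) × E3 => Complex.exp (-((⟪p.1.2, p.2⟫ : ℝ) : ℂ) * I) :=
    Complex.measurable_exp.comp (((Complex.measurable_ofReal.comp h2).neg).mul_const I)
  exact h3.mul h1

/-- the Fourier transform is bounded -/
theorem ft_bdd (g : S2 → ℂ) (ξ : E3) : ‖ft g ξ‖ₑ ≤ ∫⁻ x, ‖g x‖ₑ ∂sigma := by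
  unfold ft
  refine (enorm_integral_le_lintegral_enorm _).trans (le_of_eq ?_)
  refine lintegral_congr fun x => ?_
  have h1 : ‖Complex.exp (-(2 * Real.pi * ⟪(x : E3), ξ⟫ : ℝ) * I)‖ₑ = 1 := by
    rw [← ofReal_norm, show -((2 * Real.pi * ⟪(x : E3), ξ⟫ : ℝ) : ℂ) * I =
      ((-(2 * Real.pi * ⟪(x : E3), ξ⟫ : ℝ) : ℝ) : ℂ) * I by push_cast; ring,
      Complex.norm_exp_ofReal_mul_I, ENNReal.ofReal_one]
  rw [enorm_mul, h1, one_mul]

/-- **Theorem.** Let `0 ≤ δ < 1/3` and `p > 3 + 3δ` (for `δ = 0` this is `p > 3`, the full range of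
Stein's conjecture in `ℝ³`). For every random density `g` on the sphere with fair increments in the
longitude bounded by `M`, in the blocks given by `0 = N 0 < N 1 < …` with
`N (i+1) ≤ (1+δ) N i + K`, one has `E ‖ft (g ω)‖_p^p ≤ C M^p` with `C = C(δ, p, K)`, and almost
surely `ft (g ω)` is in `L^q(ℝ³)` for all `q > 3 + 3δ` simultaneously. -/
theorem result (δ p K : ℝ) (hδ0 : 0 ≤ δ) (hδ : δ < 1 / 3) (hp : 3 + 3 * δ < p) :
    ∃ C : ℝ, 0 < C ∧ ∀ (Ω : Type) (_ : MeasurableSpace Ω) (P : Measure Ω)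
      (_ : IsProbabilityMeasure P) (M : ℝ) (_ : 0 < M) (N : ℕ → ℕ) (_ : N 0 = 0)
      (_ : StrictMono N) (_ : ∀ i, (N (i + 1) : ℝ) ≤ (1 + δ) * N i + K)
      (g : Ω → S2 → ℂ) (_ : Fair P M N g),
      ∫⁻ ω, (∫⁻ ξ, ‖ft (g ω) ξ‖ₑ ^ p) ∂P ≤ ENNReal.ofReal (C * M ^ p) ∧
      ∀ᵐ ω ∂P, ∀ q, 3 + 3 * δ < q → MemLp (ft (g ω)) (ENNReal.ofReal q) := by
  have main : ∀ p : ℝ, 3 + 3 * δ < p → ∃ C : ℝ, 0 < C ∧ ∀ (Ω : Type) (_ : MeasurableSpace Ω)
      (P : Measure Ω) (_ : IsProbabilityMeasure P) (M : ℝ) (_ : 0 < M) (N : ℕ → ℕ) (_ : N 0 = 0)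
      (_ : StrictMono N) (_ : ∀ i, (N (i + 1) : ℝ) ≤ (1 + δ) * N i + K)
      (g : Ω → S2 → ℂ) (_ : Fair P M N g),
      ∫⁻ ω, (∫⁻ ξ, ‖ft (g ω) ξ‖ₑ ^ p) ∂P ≤ ENNReal.ofReal (C * M ^ p) := by
    intro p hp
    obtain ⟨C, hC, h⟩ := Pool.Agent.V5helper17.SR.main δ p K hδ0 hδ hp
    refine ⟨C, hC, fun Ω mΩ P hP M hM N hN0 hmono hNK g hg => ?_⟩
    have hN : ∀ i, N i ≤ N (i + 1) := fun i => (hmono (Nat.lt_succ_self i)).le
    have hgm : ∀ ω, Measurable (g ω) := fun ω => hg.meas.comp measurable_prodMk_left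
    refine le_trans (lintegral_mono fun ω => ?_) (h P M N (fun ω => ext (g ω)) hM hN0 hmono hNK
      (hg.rb hN))
    have hTm : Measurable fun X : E3 => ‖T (ext (g ω)) X‖ₑ ^ p :=
      (Pool.Agent.H438R2.PD.T_meas' _ (ext_meas _ (hgm ω))).enorm.pow_const p
    simp only [ft_T (g ω) (hgm ω)]
    exact lint_scale (fun X => ‖T (ext (g ω)) X‖ₑ ^ p) hTm
  obtain ⟨C, hC, h⟩ := main p hp
  refine ⟨C, hC, fun Ω mΩ P hP M hM N hN0 hmono hNK g hg =>
    ⟨h Ω mΩ P hP M hM N hN0 hmono hNK g hg, ?_⟩⟩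
  have hgm : ∀ ω, Measurable (g ω) := fun ω => hg.meas.comp measurable_prodMk_left
  have hjoint : Measurable fun q : Ω × E3 => ft (g q.1) q.2 := by
    have h1 := T_joint' (fun ω => ext (g ω)) (ext_joint g hg.meas)
    have h2 : Measurable fun q : Ω × E3 => (q.1, (2 * Real.pi) • q.2) := by fun_prop
    have h3 : (fun q : Ω × E3 => ft (g q.1) q.2) = fun q : Ω × E3 =>
        T (ext (g q.1)) ((2 * Real.pi) • q.2) := funext fun q => ft_T _ (hgm q.1) _
    rw [h3]
    exact Measurable.comp (g := fun q : Ω × E3 => T (ext (g q.1)) q.2)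
      (f := fun q : Ω × E3 => (q.1, (2 * Real.pi) • q.2)) h1 h2
  have hfm : ∀ ω, Measurable (ft (g ω)) := fun ω =>
    Measurable.comp (g := fun q : Ω × E3 => ft (g q.1) q.2) (f := fun ξ : E3 => (ω, ξ)) hjoint
      measurable_prodMk_left
  set e : ℕ → ℝ := fun n => 3 + 3 * δ + 1 / ((n : ℝ) + 1) with he
  have hep : ∀ n, 3 + 3 * δ < e n := fun n => by
    have : (0 : ℝ) < 1 / ((n : ℝ) + 1) := by positivity
    rw [he]
    simp only
    linarith
  have hae : ∀ᵐ ω ∂P, ∀ n, ∫⁻ ξ, ‖ft (g ω) ξ‖ₑ ^ (e n) < ⊤ := by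
    rw [ae_all_iff]
    intro n
    obtain ⟨C', _, h'⟩ := main (e n) (hep n)
    have h1 := h' Ω mΩ P hP M hM N hN0 hmono hNK g hg
    have hm : Measurable fun ω => ∫⁻ ξ, ‖ft (g ω) ξ‖ₑ ^ (e n) :=
      Measurable.lintegral_prod_right' (f := fun q : Ω × E3 => ‖ft (g q.1) q.2‖ₑ ^ (e n))
        (hjoint.enorm.pow_const _)
    exact ae_lt_top hm (lt_of_le_of_lt h1 ENNReal.ofReal_lt_top).ne
  filter_upwards [hae] with ω hω q hq
  have hq0 : 0 < q := by linarith
  obtain ⟨n, hn⟩ := exists_nat_one_div_lt (show 0 < q - (3 + 3 * δ) by linarith)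
  have hnq : e n ≤ q := by
    rw [he]
    simp only
    linarith
  refine ⟨(hfm ω).aestronglyMeasurable, ?_⟩
  rw [eLpNorm_lt_top_iff_lintegral_rpow_enorm_lt_top (by simpa using hq0)
    ENNReal.ofReal_ne_top, ENNReal.toReal_ofReal hq0.le]
  set B : ℝ≥0∞ := ∫⁻ x, ‖g ω x‖ₑ ∂sigma with hB
  have hBt : B ≠ ⊤ := (hg.int ω).2.ne
  have hc : B ^ (q - e n) ≠ ⊤ := ENNReal.rpow_ne_top_of_nonneg (by linarith) hBt
  calc ∫⁻ ξ, ‖ft (g ω) ξ‖ₑ ^ q ≤ ∫⁻ ξ, B ^ (q - e n) * ‖ft (g ω) ξ‖ₑ ^ (e n) := by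
        refine lintegral_mono fun ξ => ?_
        have h1 : q = (q - e n) + e n := by ring
        have h2 := hep n
        nth_rewrite 1 [h1]
        rw [ENNReal.rpow_add_of_nonneg _ _ (by linarith) (by linarith)]
        exact mul_le_mul' (ENNReal.rpow_le_rpow (ft_bdd (g ω) ξ) (by linarith)) le_rfl
    _ = B ^ (q - e n) * ∫⁻ ξ, ‖ft (g ω) ξ‖ₑ ^ (e n) := lintegral_const_mul' _ _ hc
    _ < ⊤ := ENNReal.mul_lt_top hc.lt_top (hω n)

end Pool.Agent.Results.MP_6cbfb8_an.FairLongitudes
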