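import Mathlib
import Pool.Agent.V5helper63.RH.Y
set_option autoImplicit false

/-!
# Stein's restriction conjecture for random densities with fair increments

Let `k ≥ 1`, `n = k + 1`. The cap `{(z, √(1 - |z|²)) : z ∈ Q}` of the unit sphere of `ℝ^n` is
parametrised by the cube `Q = [0, 1/(4k))^k`, which has the dyadic subcubes of the generations
`0, 1, 2, …`. Let `g_ω` be a random density on `Q`. Fix generations `0 = N_0 < N_1 < N_2 < …`. The
jump of `g_ω` from a cube `R` of generation `N_i` to a cube `R' ⊆ R` of generation `N_{i+1}` is the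
difference of the averages of `g_ω` over `R'` and over `R`. We assume that the jumps are bounded by
`M` and that for each `i` separately the cubes `R` of generation `N_i` can be examined one after the
other so that, given the jumps found in the earlier cubes, the jumps in the next cube have
expectation zero. Nothing is assumed about the joint law of different generations, and a jump in one
cube may depend in any way on the earlier cubes and on all other jumps out of the same cube.

Then the `q`-th power of the `L^q(ℝ^n)` norm of the Fourier transform of the measure `g_ω(z) dz` on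
the cap has expectation at most `C M^q`

* in the full range `q > 2n/(n-1)` of Stein's conjecture, if the blocks `N_{i+1} - N_i` are bounded
  (or if `N_{i+1} ≤ (1+δ) N_i + K_δ` for every `δ > 0`);
* for `q > 2 + 2(1+δ)/(n-1)`, if `N_{i+1} ≤ (1+δ) N_i + K`, which for each `δ < 1` is larger than the
  range `q ≥ 2 + 4/(n-1)` of Stein and Tomas, valid for all bounded densities.

For instance one may multiply the increments of any fixed bounded density, in all dyadic cubes `R`, by
fair random signs which are independent within each generation only (and arbitrarily coupled between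
different generations), or take the indicator function of a random union of disjoint dyadic cubes of
all generations: the children of every undecided cube are put in the set, put in its complement or
left undecided by an exchangeable rule, independently of the other cubes of the same generation.
-/

namespace Pool.Agent.Results.MP_6cbfb8_an.FairRandomDensities

open MeasureTheory Set ProbabilityTheory
open scoped ENNReal NNReal

/-- The side length `1/(4k 2^j)` of the dyadic cubes of generation `j`. -/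
noncomputable def side (k j : ℕ) : ℝ := 1 / (4 * k * 2 ^ j)

/-- The cube `Q = [0, 1/(4k))^k`. -/
def Q (k : ℕ) : Set (Fin k → ℝ) := {z | ∀ i, 0 ≤ z i ∧ z i < 1 / (4 * k)}

/-- The names `(j, m)`, `0 ≤ m_i < 2^j`, of the dyadic subcubes of `Q`. -/
abbrev Dyadic (k : ℕ) : Type := Σ j : ℕ, (Fin k → Fin (2 ^ j))

/-- The dyadic cube with the name `R = (j, m)`: `m_i side_j ≤ z_i < (m_i + 1) side_j` for all `i`. -/
def cube {k : ℕ} (R : Dyadic k) : Set (Fin k → ℝ) :=
  {z | ∀ i, ((R.2 i : ℕ) : ℝ) * side k R.1 ≤ z i ∧ z i < (((R.2 i : ℕ) : ℝ) + 1) * side k R.1}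

/-- The Fourier transform at `(x, t) ∈ ℝ^k × ℝ` of the image of `f(z) dz` (`z ∈ Q`) under
`z ↦ (z, √(1 - |z|²))`: `∫_Q f(z) exp(-2πi (z · x + √(1 - |z|²) t)) dz`. -/
noncomputable def FT {k : ℕ} (f : (Fin k → ℝ) → ℂ) (ξ : (Fin k → ℝ) × ℝ) : ℂ :=
  ∫ z in Q k, f z * Complex.exp (-(2 * Real.pi * Complex.I) *
    ((∑ i, z i * ξ.1 i + Real.sqrt (1 - ∑ i, z i ^ 2) * ξ.2 : ℝ) : ℂ))

/-- The jump of `f` from `R` to `R'`: the average over `R'` minus the average over `R`. -/
noncomputable def jump {k : ℕ} (f : (Fin k → ℝ) → ℂ) (R R' : Dyadic k) : ℂ :=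
  (⨍ z in cube R', f z) - ⨍ z in cube R, f z

/-- The pair `(R, R')` belongs to block `i`: `R` is a cube of generation `N i` and `R'` is a subcube
of `R` of generation `N (i+1)`. -/
def InBlock {k : ℕ} (N : ℕ → ℕ) (i : ℕ) (R R' : Dyadic k) : Prop :=
  R.1 = N i ∧ R'.1 = N (i + 1) ∧ cube R' ⊆ cube R

/-- A random density with fair increments, in blocks of generations. -/
structure Fair {k : ℕ} {Ω : Type} [mΩ : MeasurableSpace Ω] (P : Measure Ω) (M : ℝ) (N : ℕ → ℕ)
    (g : Ω → (Fin k → ℝ) → ℂ) : Prop where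
  /-- every realisation is an integrable function on `Q` -/
  int : ∀ ω, IntegrableOn (g ω) (Q k)
  /-- with mean value at most `M` -/
  mean : ∀ ω, ‖⨍ z in Q k, g ω z‖ ≤ M
  /-- and with jumps at most `M` -/
  bound : ∀ ω i R R', InBlock N i R R' → ‖jump (g ω) R R'‖ ≤ M
  /-- for each `i` there are a linear order `rank` of the cubes of generation `N i` and a
  filtration `F` such that the jumps out of the cube of rank `r` are `F (r+1)`-measurable and have
  conditional expectation zero given `F r` -/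
  fair : ∀ i, ∃ (F : Filtration ℕ mΩ) (rank : Dyadic k → ℕ), InjOn rank {R | R.1 = N i} ∧
    ∀ R R', InBlock N i R R' → Measurable[F (rank R + 1)] (fun ω => jump (g ω) R R') ∧
      P[fun ω => jump (g ω) R R' | F (rank R)] =ᵐ[P] 0

/-! ### Bridge to the internal form -/

lemma side_eq (k j : ℕ) : side k j = V5helper63.RH.side k j := rfl

lemma cube_eq {k : ℕ} (R : Dyadic k) : cube R = V5helper63.RH.cu R.2 := rfl

lemma Q_eq (k : ℕ) : Q k = V5helper63.RH.QQ k := by
  ext z
  unfold Q V5helper63.RH.QQ V5helper63.RH.cube V5helper63.RH.side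
  simp

lemma FT_eq {k : ℕ} (f : (Fin k → ℝ) → ℂ) (ξ : (Fin k → ℝ) × ℝ) :
    FT f ξ = V5helper63.RH.FF f ξ := by
  unfold FT V5helper63.RH.FF
  rw [Q_eq]
  rfl

lemma jump_eq {k : ℕ} (f : (Fin k → ℝ) → ℂ) {j j' : ℕ} (h : j ≤ j') (m' : Fin k → Fin (2 ^ j')) :
    jump f ⟨j, V5helper63.RH.an h m'⟩ ⟨j', m'⟩ = V5helper63.RH.bj h f m' := rfl

lemma inBlock {k : ℕ} (hk : 1 ≤ k) {N : ℕ → ℕ} (hle : ∀ i, N i ≤ N (i + 1)) (i : ℕ)
    (m' : Fin k → Fin (2 ^ N (i + 1))) :
    InBlock N i (⟨N i, V5helper63.RH.an (hle i) m'⟩ : Dyadic k) ⟨N (i + 1), m'⟩ :=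
  ⟨rfl, rfl, V5helper63.RH.cu_an hk (hle i) m'⟩

lemma Fair.blk {k : ℕ} (hk : 1 ≤ k) {Ω : Type} [mΩ : MeasurableSpace Ω] {P : Measure Ω} {M : ℝ}
    {N : ℕ → ℕ} {g : Ω → (Fin k → ℝ) → ℂ} (hg : Fair P M N g) (hle : ∀ i, N i ≤ N (i + 1)) (i : ℕ) :
    V5helper63.RH.Blk P M (hle i) g := by
  obtain ⟨F, rank, hinj, hf⟩ := hg.fair i
  refine ⟨fun ω m' => ?_, F, fun m => rank ⟨N i, m⟩, ?_, ?_⟩
  · rw [← jump_eq]
    exact hg.bound ω i _ _ (inBlock hk hle i m')
  · intro m₁ m₂ h
    have h1 : (⟨N i, m₁⟩ : Dyadic k) = ⟨N i, m₂⟩ := hinj rfl rfl h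
    exact eq_of_heq (Sigma.mk.inj h1).2
  · intro m m' hm'
    have hm : V5helper63.RH.an (hle i) m' = m := (Finset.mem_filter.mp hm').2
    have h2 := hf ⟨N i, V5helper63.RH.an (hle i) m'⟩ ⟨N (i + 1), m'⟩ (inBlock hk hle i m')
    simp only [jump_eq] at h2
    rw [← hm]
    exact h2

/-- **Theorem.** Let `k ≥ 1`, `n = k + 1`, `δ ≥ 0` and `q > 2 + 2(1+δ)/k`. For every random density
`g` on `Q` which has fair increments bounded by `M` in the blocks given by `0 = N 0 < N 1 < …` with
`N (i+1) ≤ (1+δ) N i + K`, one has `E ‖FT (g ω)‖_q^q ≤ C M^q` with `C = C(k, δ, q, K)`, and almost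
surely `FT (g ω)` is in `L^p(ℝ^n)` for all `p > 2 + 2(1+δ)/k` simultaneously. -/
theorem result (k : ℕ) (hk : 1 ≤ k) (δ q K : ℝ) (hδ : 0 ≤ δ) (hq : 2 + 2 * (1 + δ) / k < q) :
    ∃ C : ℝ≥0, ∀ (Ω : Type) (_ : MeasurableSpace Ω) (P : Measure Ω) (_ : IsProbabilityMeasure P)
      (M : ℝ) (_ : 0 < M) (N : ℕ → ℕ) (_ : N 0 = 0) (_ : StrictMono N)
      (_ : ∀ i, (N (i + 1) : ℝ) ≤ (1 + δ) * N i + K)
      (g : Ω → (Fin k → ℝ) → ℂ) (_ : Fair P M N g),
      ∫⁻ ω, (∫⁻ ξ, ‖FT (g ω) ξ‖ₑ ^ q) ∂P ≤ C * ENNReal.ofReal M ^ q ∧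
      ∀ᵐ ω ∂P, ∀ p, 2 + 2 * (1 + δ) / k < p → MemLp (FT (g ω)) (ENNReal.ofReal p) := by
  obtain ⟨C, hC, h⟩ := V5helper63.RH.main (k := k) hk δ q hδ hq K
  refine ⟨C.toNNReal, fun Ω mΩ P hP M hM N hN0 hmono hN g hg => ?_⟩
  have hlt : ∀ i, N i < N (i + 1) := fun i => hmono (Nat.lt_succ_self i)
  have hle : ∀ i, N i ≤ N (i + 1) := fun i => (hlt i).le
  have hint : ∀ ω, IntegrableOn (g ω) (V5helper63.RH.QQ k) := fun ω => by
    rw [← Q_eq]; exact hg.int ω
  have hmean : ∀ ω, ‖V5helper63.RH.av (g ω) (V5helper63.RH.rt k)‖ ≤ M := fun ω => by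
    unfold V5helper63.RH.av
    rw [V5helper63.RH.cu_rt, ← Q_eq]
    exact hg.mean ω
  have hFT : ∀ ω, FT (g ω) = V5helper63.RH.FF (g ω) := fun ω => funext fun ξ => FT_eq _ _
  rw [ENNReal.coe_toNNReal hC]
  constructor
  · simp only [hFT]
    exact (h P hM hN0 hle hlt hN g hint hmean fun i => hg.blk hk hle i).1
  · simp only [hFT]
    have hk0 : (0:ℝ) < k := by exact_mod_cast hk
    refine V5helper63.RH.all_exp hint (by positivity) fun p hp => ?_
    obtain ⟨_, _, h'⟩ := V5helper63.RH.main (k := k) hk δ p hδ hp K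
    exact (h' P hM hN0 hle hlt hN g hint hmean fun i => hg.blk hk hle i).2

end Pool.Agent.Results.MP_6cbfb8_an.FairRandomDensities
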