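import Mathlib
import Pool.Agent.V5helper17.RL.Global
import Pool.Agent.TH335.RF.P4
set_option autoImplicit false

/-!
# Stein's restriction conjecture for densities which are slightly regular along latitude spheres

Let `n = k + 1 ≥ 3`. The sphere `S^k` is the union of its latitude spheres
`{(sin θ · u, cos θ) : u ∈ S^(k-1)}`, `0 < θ < π`. Let `h` be a bounded density on `S^k` which has
`s` derivatives in `L²` *along the latitude spheres only*, in the sense that
`∫_0^π ∫∫ |h(θ,u) - h(θ,u')|² / |u-u'|^(k-1+2s) dσ(u) dσ(u') dθ < ∞`. Nothing but measurability is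
assumed in the remaining variable `θ`, and the axis may be arbitrary. If
`s ≥ (n-1)(n-2)/(3n²-6n+1)` (which is `1/5` for `n = 3` and less than `1/3` for all `n`), then the
Fourier transform of `h dσ` is in `L^p(ℝ^n)` for all `p > 2n/(n-1)`, the full range of Stein's
conjecture; for smaller `s > 0` it is in `L^p` for `p > 2n/(n-1)` with
`p > 2 + 2(2(n-2) - s(3n-7))/((n-1)(n-2) + 2s(2n-3))`, where the right hand side is smaller than the
Stein-Tomas exponent `2(n+1)/(n-1)`. The same holds for infinite superpositions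
`∑_j e^{i⟨η_j,x⟩} h_j(Λ_j x)` with arbitrary frequencies `η_j` and arbitrary rotations `Λ_j`.
-/

namespace Pool.Agent.Results.MP_6cbfb8_an.LatitudeRegularDensities

open MeasureTheory Set Metric Complex
open Pool.Agent.TH335.RF (mink)
open scoped ENNReal RealInnerProductSpace

/-- the space `ℝ^n` -/
abbrev E (n : ℕ) := EuclideanSpace ℝ (Fin n)

/-- the unit sphere of `ℝ^n` -/
abbrev Sph (n : ℕ) := sphere (0 : E n) 1

/-- surface measure on the unit sphere of `ℝ^n` -/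
noncomputable def sigma (n : ℕ) : Measure (Sph n) := (volume : Measure (E n)).toSphere

/-- the Fourier transform of the measure `g dσ` -/
noncomputable def ft {n : ℕ} (g : Sph n → ℂ) (ξ : E n) : ℂ :=
  ∫ x, Complex.exp (-(2 * Real.pi * ⟪(x : E n), ξ⟫ : ℝ) * I) * g x ∂(sigma n)

/-- the vector `(sin θ · u, cos θ)` -/
noncomputable def vec {k : ℕ} (θ : ℝ) (u : E k) : E (k + 1) :=
  WithLp.toLp 2 (Fin.snoc (α := fun _ => ℝ) (fun i => Real.sin θ * u i) (Real.cos θ))

theorem vec_eq {k : ℕ} (θ : ℝ) (u : E k) : vec θ u = Pool.Agent.V5helper17.RL.lp θ u := by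
  unfold vec Pool.Agent.V5helper17.RL.lp Pool.Agent.H438R2.BR.J
  congr 1
  rw [Fin.append_right_eq_snoc]
  funext i
  refine Fin.lastCases ?_ (fun i => ?_) i
  · simp [Pool.Agent.H438R2.BR.T10.e0]
  · simp

theorem vec_norm {k : ℕ} (θ : ℝ) (u : Sph k) : vec θ (u : E k) ∈ sphere (0 : E (k + 1)) 1 := by
  have hu : ‖(u : E k)‖ = 1 := by simp
  rw [mem_sphere_zero_iff_norm, vec_eq]
  have h1 : ‖Pool.Agent.V5helper17.RL.lp θ (u : E k)‖ ^ 2 = 1 := by
    unfold Pool.Agent.V5helper17.RL.lp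
    rw [Pool.Agent.V5helper17.RL.J_norm_sq, norm_smul, norm_smul, hu,
      Pool.Agent.H438R2.BR.T10.e0_norm, mul_one, mul_one, Real.norm_eq_abs, Real.norm_eq_abs,
      sq_abs, sq_abs]
    exact Real.sin_sq_add_cos_sq θ
  nlinarith [norm_nonneg (Pool.Agent.V5helper17.RL.lp θ (u : E k))]

/-- The point `(sin θ · u, cos θ)` of the sphere `S^k ⊂ ℝ^(k+1)`. For `0 < θ < π` fixed and
`u ∈ S^(k-1)` variable these points form the latitude sphere of polar angle `θ`. -/
noncomputable def pt {k : ℕ} (θ : ℝ) (u : Sph k) : Sph (k + 1) := ⟨vec θ (u : E k), vec_norm θ u⟩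

/-- The energy of order `s` along the latitude spheres,
`∫_0^π ∫∫ |h(θ,u) - h(θ,u')|² / |u-u'|^(k-1+2s) dσ(u') dσ(u) dθ`. -/
noncomputable def energy {k : ℕ} (s : ℝ) (h : Sph (k + 1) → ℂ) : ℝ≥0∞ :=
  ∫⁻ θ in Ioo (0 : ℝ) Real.pi, ∫⁻ u, ∫⁻ u', ENNReal.ofReal
    (‖h (pt θ u) - h (pt θ u')‖ ^ 2 / ‖(u : E k) - (u' : E k)‖ ^ ((k : ℝ) - 1 + 2 * s))
      ∂(sigma k) ∂(sigma k)

/-- `h` is measurable, `|h| ≤ M`, and the energy of `h` of order `s` along the latitude spheres is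
at most `M²`. There is no condition on the behaviour of `h` across the latitude spheres. -/
def LatReg {k : ℕ} (s M : ℝ) (h : Sph (k + 1) → ℂ) : Prop :=
  Measurable h ∧ (∀ x, ‖h x‖ ≤ M) ∧ energy s h ≤ ENNReal.ofReal (M ^ 2)

/-- the action of a linear isometry on the sphere -/
noncomputable def rot {n : ℕ} (Λ : E n ≃ₗᵢ[ℝ] E n) (x : Sph n) : Sph n :=
  ⟨Λ (x : E n), by simp⟩

/-- The density `g` on `S^k` is a superposition `∑_j e^{i⟨η_j, x⟩} h_j(Λ_j x)`, where `Λ_j` are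
linear isometries of `ℝ^(k+1)` and `h_j` satisfies `LatReg s (M j)`. -/
def Super {k : ℕ} (s : ℝ) (M : ℕ → ℝ) (g : Sph (k + 1) → ℂ) : Prop :=
  ∃ (η : ℕ → E (k + 1)) (Λ : ℕ → E (k + 1) ≃ₗᵢ[ℝ] E (k + 1)) (h : ℕ → Sph (k + 1) → ℂ),
    (∀ j, LatReg s (M j) (h j)) ∧
    ∀ᵐ x : Sph (k + 1) ∂(sigma (k + 1)), g x =
      ∑' j, Complex.exp ((⟪η j, (x : E (k + 1))⟫ : ℝ) * I) * h j (rot (Λ j) x)

/-! ### Proofs -/

open Pool.Agent.H789R2.FR (sg T sg_finite)
open Pool.Agent.V5helper17.RL (Bd Gb Gb_lp Gb_meas Gb_le Gag lp lp_meas glob sphere_ae T_congr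
  T_iso)

lemma lintegral_sg {n : ℕ} (f : E n → ℝ≥0∞) (hf : Measurable f) :
    ∫⁻ x, f x ∂(sg n) = ∫⁻ x : Sph n, f (x : E n) ∂(sigma n) := by
  rw [sg, lintegral_map hf measurable_subtype_coe]
  rfl

lemma integral_sg {n : ℕ} (f : E n → ℂ) (hf : AEStronglyMeasurable f (sg n)) :
    ∫ x, f x ∂(sg n) = ∫ x : Sph n, f (x : E n) ∂(sigma n) := by
  rw [sg] at hf ⊢
  rw [integral_map measurable_subtype_coe.aemeasurable hf]
  rfl

/-- extension by zero to the whole space -/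
noncomputable def ext {n : ℕ} (h : Sph n → ℂ) : E n → ℂ := Function.extend Subtype.val h 0

theorem ext_coe {n : ℕ} (h : Sph n → ℂ) (x : Sph n) : ext h (x : E n) = h x :=
  Subtype.val_injective.extend_apply _ _ _

theorem ext_meas {n : ℕ} (h : Sph n → ℂ) (hh : Measurable h) : Measurable (ext h) :=
  (MeasurableEmbedding.subtype_coe isClosed_sphere.measurableSet).measurable_extend
      hh measurable_zero

theorem ext_le {n : ℕ} (h : Sph n → ℂ) (M : ℝ) (hM : 0 ≤ M) (hh : ∀ x, ‖h x‖ ≤ M) (x : E n) :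
    ‖ext h x‖ ≤ M := by
  by_cases hx : ∃ y : Sph n, (y : E n) = x
  · obtain ⟨y, rfl⟩ := hx
    rw [ext_coe]
    exact hh y
  · unfold ext
    rw [Function.extend_apply' _ _ _ hx]
    simpa using hM

/-- the Fourier transform of a rotated density -/
theorem ft_rot {n : ℕ} (h : Sph n → ℂ) (hh : Measurable h) (Λ : E n ≃ₗᵢ[ℝ] E n) (ξ : E n) :
    ft (fun x => h (rot Λ x)) ξ = T (ext h) (Λ ((2 * Real.pi) • ξ)) := by
  have hm : Measurable fun w : E n => ext h (Λ w) :=
    (ext_meas h hh).comp Λ.continuous.measurable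
  rw [← T_iso rfl Λ (ext h), T]
  have hc : Measurable fun w : E n =>
      Complex.exp (-((⟪(2 * Real.pi) • ξ, w⟫ : ℝ) : ℂ) * I) * ext h (Λ w) := by
    refine Measurable.mul ?_ hm
    have : Continuous fun w : E n => Complex.exp (-((⟪(2 * Real.pi) • ξ, w⟫ : ℝ) : ℂ) * I) := by
      fun_prop
    exact this.measurable
  rw [integral_sg _ hc.aestronglyMeasurable]
  unfold ft
  refine integral_congr_ae (Filter.Eventually.of_forall fun x => ?_)
  have h1 : ext h (Λ (x : E n)) = h (rot Λ x) := ext_coe h (rot Λ x)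
  simp only
  rw [h1, real_inner_smul_left, real_inner_comm]

theorem lint_scale {n : ℕ} (Λ : E n ≃ₗᵢ[ℝ] E n) (f : E n → ℝ≥0∞) (hf : Measurable f) :
    ∫⁻ ξ, f (Λ ((2 * Real.pi) • ξ)) ≤ ∫⁻ x, f x := by
  have h2pi : (2 * Real.pi) ≠ 0 := by positivity
  have hg : Measurable fun x : E n => f (Λ x) := hf.comp Λ.continuous.measurable
  have h3 := Measure.map_addHaar_smul (volume : Measure (E n)) h2pi
  have h4 : ∫⁻ x : E n, f (Λ x) ∂(Measure.map ((2 * Real.pi) • · : E n → E n) volume) =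
      ∫⁻ ξ : E n, f (Λ ((2 * Real.pi) • ξ)) :=
    lintegral_map hg (measurable_const_smul _)
  rw [h3, lintegral_smul_measure] at h4
  rw [← h4, Λ.measurePreserving.lintegral_comp hf, smul_eq_mul]
  calc ENNReal.ofReal |((2 * Real.pi) ^ Module.finrank ℝ (E n))⁻¹| * ∫⁻ x, f x
      ≤ 1 * ∫⁻ x, f x := by
        gcongr
        rw [← ENNReal.ofReal_one]
        refine ENNReal.ofReal_le_ofReal ?_
        rw [abs_of_pos (by positivity)]
        refine inv_le_one_of_one_le₀ (one_le_pow₀ ?_)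
        linarith [Real.pi_gt_three]
    _ = _ := one_mul _

/-- the double integral of a function on pairs of points of the sphere -/
theorem lint_two {k : ℕ} (F : E k × E k → ℝ≥0∞) (hF : Measurable F) :
    ∫⁻ x, ∫⁻ y, F (x, y) ∂(sg k) ∂(sg k) =
      ∫⁻ u : Sph k, ∫⁻ u' : Sph k, F ((u : E k), (u' : E k)) ∂(sigma k) ∂(sigma k) := by
  have := sg_finite k
  rw [lintegral_sg (fun x => ∫⁻ y, F (x, y) ∂(sg k)) hF.lintegral_prod_right']
  refine lintegral_congr fun u => ?_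
  exact lintegral_sg (fun y => F ((u : E k), y)) (hF.comp measurable_prodMk_left)

/-- the integrand of the energy -/
noncomputable def Fn {k : ℕ} (s : ℝ) (b : E k → ℂ) (z : E k × E k) : ℝ≥0∞ :=
  ENNReal.ofReal (‖b z.1 - b z.2‖ ^ 2 / ‖z.1 - z.2‖ ^ ((k : ℝ) - 1 + 2 * s))

theorem Fn_meas {k : ℕ} (s : ℝ) (b : E k → ℂ) (hb : Measurable b) : Measurable (Fn s b) := by
  apply Measurable.ennreal_ofReal
  have h1 : Measurable fun z : E k × E k => b z.1 := hb.comp measurable_fst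
  have h2 : Measurable fun z : E k × E k => b z.2 := hb.comp measurable_snd
  exact ((h1.sub h2).norm.pow_const 2).div
    ((measurable_fst.sub measurable_snd).norm.pow_const _)

theorem slice_energy {k : ℕ} (s : ℝ) (b : E k → ℂ) (hb : Measurable b) (h : Sph k → ℂ) (c : ℝ)
    (hc : 0 ≤ c) (hbh : ∀ u : Sph k, b (u : E k) = ((c : ℝ) : ℂ) * h u) :
    ∫⁻ x, ∫⁻ y, Fn s b (x, y) ∂(sg k) ∂(sg k) = ENNReal.ofReal (c ^ 2) *
      ∫⁻ u, ∫⁻ u', ENNReal.ofReal
        (‖h u - h u'‖ ^ 2 / ‖(u : E k) - (u' : E k)‖ ^ ((k : ℝ) - 1 + 2 * s))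
          ∂(sigma k) ∂(sigma k) := by
  rw [lint_two _ (Fn_meas s b hb), ← lintegral_const_mul' _ _ ENNReal.ofReal_ne_top]
  refine lintegral_congr fun u => ?_
  rw [← lintegral_const_mul' _ _ ENNReal.ofReal_ne_top]
  refine lintegral_congr fun u' => ?_
  unfold Fn
  simp only
  rw [hbh, hbh, ← mul_sub, norm_mul, ← ENNReal.ofReal_mul (by positivity), Complex.norm_real,
    Real.norm_of_nonneg hc]
  congr 1
  ring

/-- the energy in terms of the extension -/
theorem energy_eq {k : ℕ} (s : ℝ) (h : Sph (k + 1) → ℂ) (c : ℝ) (hc : 0 ≤ c)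
    (b : ℝ → E k → ℂ) (hb : ∀ θ, Measurable (b θ))
    (hbh : ∀ θ u, b θ u = ((c : ℝ) : ℂ) * ext h (lp θ u)) :
    Gag s b = ENNReal.ofReal (c ^ 2) * energy s h := by
  unfold Gag energy
  rw [← lintegral_const_mul' _ _ ENNReal.ofReal_ne_top]
  refine lintegral_congr fun θ => ?_
  refine slice_energy s (b θ) (hb θ) (fun u => h (pt θ u)) c hc fun u => ?_
  rw [hbh, ← vec_eq]
  have h1 : ext h (vec θ (u : E k)) = h (pt θ u) := ext_coe h (pt θ u)
  rw [h1]

/-- the estimate for one term -/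
theorem one_term (k : ℕ) (hk : 2 ≤ k) (s p : ℝ) (hs : 0 < s)
    (hp : 2 * ((k : ℝ) + 1) / k < p)
    (hsp : 2 * (2 * ((k : ℝ) - 1) - s * (3 * k - 4)) <
      (p - 2) * (k * (k - 1) + 2 * s * (2 * k - 1))) :
    ∃ C : ℝ, 0 < C ∧ ∀ (M : ℝ), 0 ≤ M → ∀ h : Sph (k + 1) → ℂ, LatReg s M h →
    ∫⁻ X : E (k + 1), ‖T (ext h) X‖ₑ ^ p ≤ ENNReal.ofReal (C * M ^ p) := by
  obtain ⟨m, rfl⟩ : ∃ m, k = m + 1 := ⟨k - 1, by omega⟩
  have hm : 1 ≤ m := by omega
  push_cast at hp hsp
  have hp0 : 0 < p := by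
    refine lt_trans ?_ hp
    positivity
  obtain ⟨C, hC, hmain⟩ := glob m hm s p hs (by convert hp using 2; ring) (by
    convert hsp using 2 <;> ring)
  refine ⟨C, hC, fun M hM h hh => ?_⟩
  obtain ⟨hmeas, hbd, hen⟩ := hh
  have hen1 : ∀ z : ℂ, ‖z‖ₑ ^ p = ENNReal.ofReal (‖z‖ ^ p) := by
    intro z
    rw [← ofReal_norm, ENNReal.ofReal_rpow_of_nonneg (norm_nonneg _) hp0.le]
  rcases hM.eq_or_lt with h0 | h0
  · have hz : h = fun _ => 0 := by
      funext x
      have := hbd x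
      rw [← h0] at this
      simpa using this
    have hz2 : ext h = fun _ => 0 := by
      funext x
      have := ext_le h 0 le_rfl (fun x => by rw [hz]; simp) x
      simpa using this
    have hz3 : ∀ X, T (ext h) X = 0 := by
      intro X
      rw [hz2, T]
      simp
    simp_rw [hz3]
    simp [hp0]
  · set b : ℝ → E (m + 1) → ℂ := fun θ u => ((M⁻¹ : ℝ) : ℂ) * ext h (lp θ u) with hbdef
    have hem := ext_meas h hmeas
    have hb : Bd 1 b := by
      refine ⟨?_, fun θ u => ?_⟩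
      · have h1 : Measurable fun q : ℝ × E (m + 1) => ext h (lp q.1 q.2) :=
          hem.comp (lp_meas (m + 1))
        exact h1.const_mul _
      · rw [hbdef]
        simp only
        rw [norm_mul, Complex.norm_real, Real.norm_of_nonneg (by positivity)]
        calc M⁻¹ * ‖ext h (lp θ u)‖ ≤ M⁻¹ * M := by
              gcongr
              exact ext_le h M hM hbd _
          _ = 1 := inv_mul_cancel₀ h0.ne'
    have hG : Gag s b ≤ 1 := by
      rw [energy_eq s h M⁻¹ (by positivity) b hb.meas1 fun θ u => rfl]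
      calc ENNReal.ofReal (M⁻¹ ^ 2) * energy s h
          ≤ ENNReal.ofReal (M⁻¹ ^ 2) * ENNReal.ofReal (M ^ 2) := by gcongr
        _ = 1 := by
            rw [← ENNReal.ofReal_mul (by positivity), ← mul_pow, inv_mul_cancel₀ h0.ne']
            simp
    have hGb : ∀ᵐ w ∂(sg (m + 1 + 1)), Gb b w = ((M⁻¹ : ℝ) : ℂ) * ext h w := by
      refine sphere_ae (by omega) (fun w => Gb b w = ((M⁻¹ : ℝ) : ℂ) * ext h w)
        (measurableSet_eq_fun (Gb_meas hb) (hem.const_mul _)) fun θ hθ u hu => ?_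
      rw [Gb_lp b hθ hu]
    have hT : ∀ X, T (ext h) X = (M : ℂ) * T (Gb b) X := by
      intro X
      rw [T_congr hGb X]
      unfold T
      rw [← integral_const_mul]
      refine integral_congr_ae (Filter.Eventually.of_forall fun w => ?_)
      have hMc : (M : ℂ) ≠ 0 := by exact_mod_cast h0.ne'
      simp only
      push_cast
      field_simp
    calc ∫⁻ X : E (m + 1 + 1), ‖T (ext h) X‖ₑ ^ p
        = ∫⁻ X : E (m + 1 + 1), ENNReal.ofReal (M ^ p) * ENNReal.ofReal (‖T (Gb b) X‖ ^ p) := by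
          refine lintegral_congr fun X => ?_
          rw [hT, hen1, norm_mul, Complex.norm_real, Real.norm_of_nonneg hM,
            Real.mul_rpow hM (norm_nonneg _), ENNReal.ofReal_mul (by positivity)]
      _ = ENNReal.ofReal (M ^ p) * ∫⁻ X : E (m + 1 + 1), ENNReal.ofReal (‖T (Gb b) X‖ ^ p) :=
          lintegral_const_mul' _ _ ENNReal.ofReal_ne_top
      _ ≤ ENNReal.ofReal (M ^ p) * ENNReal.ofReal C := by
          gcongr
          exact hmain b hb hG
      _ = ENNReal.ofReal (C * M ^ p) := by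
          rw [← ENNReal.ofReal_mul (by positivity), mul_comm]

theorem ft_mod {n : ℕ} (g : Sph n → ℂ) (η ξ : E n) :
    ft (fun x => Complex.exp ((⟪η, (x : E n)⟫ : ℝ) * I) * g x) ξ =
      ft g (ξ - (2 * Real.pi)⁻¹ • η) := by
  unfold ft
  refine integral_congr_ae (Filter.Eventually.of_forall fun x => ?_)
  simp only
  rw [← mul_assoc, ← Complex.exp_add, inner_sub_right, real_inner_smul_right,
    real_inner_comm (x : E n) η]
  have hpi := Real.pi_ne_zero
  congr 2
  push_cast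
  field_simp
  ring

/-- **Theorem.** Let `n = k + 1 ≥ 3` and `s > 0`, and let `p > 2n/(n-1)`, the range of Stein's
conjecture. Assume in addition that `s ≥ (n-1)(n-2)/(3(n-1)²-2)`, or that
`p > 2 + 2(2(n-2) - s(3n-7))/((n-1)(n-2) + 2s(2n-3))`. Then the Fourier transform of a superposition
of modulated and rotated bounded densities with `s` derivatives in `L²` along the latitude spheres
is in `L^p(ℝ^n)`, with norm at most `C ∑ M_j`. -/
theorem result (k : ℕ) (hk : 2 ≤ k) (s p : ℝ) (hs : 0 < s)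
    (hp : 2 * ((k : ℝ) + 1) / k < p)
    (hsp : (k : ℝ) * (k - 1) / (3 * k ^ 2 - 2) ≤ s ∨
      2 + 2 * (2 * ((k : ℝ) - 1) - s * (3 * k - 4)) / (k * (k - 1) + 2 * s * (2 * k - 1)) < p) :
    ∃ C : ℝ, 0 < C ∧ ∀ M : ℕ → ℝ, (∀ j, 0 ≤ M j) → Summable M →
      ∀ g : Sph (k + 1) → ℂ, Super s M g →
        MemLp (ft g) (ENNReal.ofReal p) ∧
        eLpNorm (ft g) (ENNReal.ofReal p) ≤ ENNReal.ofReal (C * ∑' j, M j) := by
  have hk2 : (2 : ℝ) ≤ k := by exact_mod_cast hk
  have hk0 : (0 : ℝ) < k := by linarith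
  have hp0 : 0 < p := by
    refine lt_trans ?_ hp
    positivity
  have hp1 : 1 ≤ p := by
    have h1 : (2 : ℝ) < 2 * ((k : ℝ) + 1) / k := by
      rw [lt_div_iff₀ hk0]
      linarith
    linarith
  have hden : (0 : ℝ) < k * (k - 1) + 2 * s * (2 * k - 1) := by
    have h1 : 0 < (k : ℝ) * (k - 1) := mul_pos hk0 (by linarith)
    have h2 : 0 < 2 * s * (2 * (k : ℝ) - 1) := mul_pos (by linarith) (by linarith)
    linarith
  have hsp' : 2 * (2 * ((k : ℝ) - 1) - s * (3 * k - 4)) <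
      (p - 2) * (k * (k - 1) + 2 * s * (2 * k - 1)) := by
    rcases hsp with h | h
    · have h1 : (0 : ℝ) < 3 * k ^ 2 - 2 := by nlinarith
      rw [div_le_iff₀ h1] at h
      rw [div_lt_iff₀ hk0] at hp
      have h2 : 2 < (p - 2) * k := by linarith
      have h3 : 2 * (k * (k - 1) + 2 * s * (2 * k - 1)) <
          (p - 2) * k * (k * (k - 1) + 2 * s * (2 * k - 1)) := mul_lt_mul_of_pos_right h2 hden
      have h4 : (k : ℝ) * (2 * (2 * ((k : ℝ) - 1) - s * (3 * k - 4))) <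
          k * ((p - 2) * (k * (k - 1) + 2 * s * (2 * k - 1))) := by nlinarith
      exact lt_of_mul_lt_mul_left h4 hk0.le
    · rw [← div_lt_iff₀ hden]
      linarith
  obtain ⟨C, hC, hmain⟩ := one_term k hk s p hs hp hsp'
  refine ⟨C ^ (1 / p), by positivity, ?_⟩
  rintro M hM0 hM g ⟨η, Λ, h, hh, hg⟩
  have hfin : IsFiniteMeasure (sigma (k + 1)) := by unfold sigma; infer_instance
  -- one term
  set hr : ℕ → Sph (k + 1) → ℂ := fun j x => h j (rot (Λ j) x) with hrdef
  have hrotm : ∀ j, Measurable (rot (Λ j)) := by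
    intro j
    refine Measurable.subtype_mk ?_
    exact (Λ j).continuous.measurable.comp measurable_subtype_coe
  have hrm : ∀ j, Measurable (hr j) := fun j => (hh j).1.comp (hrotm j)
  have hTm : ∀ j, Measurable (T (ext (h j))) := fun j =>
    (Pool.Agent.H789R2.FR.Lp_T_meas (ext_meas (h j) (hh j).1)).measurable
  have hfr : ∀ j, ft (hr j) = fun ξ => T (ext (h j)) (Λ j ((2 * Real.pi) • ξ)) := fun j =>
    funext fun ξ => ft_rot (h j) (hh j).1 (Λ j) ξ
  have hone : ∀ j, Measurable (ft (hr j)) ∧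
      ∫⁻ ξ, ‖ft (hr j) ξ‖ₑ ^ p ≤ ENNReal.ofReal (C * M j ^ p) := by
    intro j
    refine ⟨?_, ?_⟩
    · rw [hfr]
      have h1 : Measurable fun ξ : E (k + 1) => Λ j ((2 * Real.pi) • ξ) :=
        (Λ j).continuous.measurable.comp (measurable_const_smul _)
      exact (hTm j).comp h1
    · rw [hfr]
      exact (lint_scale (Λ j) (fun X => ‖T (ext (h j)) X‖ₑ ^ p)
        ((hTm j).enorm.pow_const p)).trans (hmain (M j) (hM0 j) (h j) (hh j))
  have hL1 : ∀ j, ∫⁻ x, ‖hr j x‖ₑ ∂(sigma (k + 1)) ≤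
      ENNReal.ofReal ((sigma (k + 1)).real univ * M j) := by
    intro j
    calc ∫⁻ x, ‖hr j x‖ₑ ∂(sigma (k + 1)) ≤ ∫⁻ _, ENNReal.ofReal (M j) ∂(sigma (k + 1)) := by
          refine lintegral_mono fun x => ?_
          rw [← ofReal_norm]
          exact ENNReal.ofReal_le_ofReal ((hh j).2.1 _)
      _ = _ := by
          rw [lintegral_const, ENNReal.ofReal_mul measureReal_nonneg, mul_comm,
            ofReal_measureReal]
  have hsub : ∀ j, Measurable fun ξ : E (k + 1) => ξ - (2 * Real.pi)⁻¹ • η j :=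
    fun j => measurable_id.sub_const _
  set gj : ℕ → Sph (k + 1) → ℂ := fun j x =>
    Complex.exp ((⟪η j, (x : E (k + 1))⟫ : ℝ) * I) * hr j x with hgj
  have hftj : ∀ j, ft (gj j) = fun ξ => ft (hr j) (ξ - (2 * Real.pi)⁻¹ • η j) := by
    intro j
    funext ξ
    exact ft_mod (hr j) (η j) ξ
  have hmj : ∀ j, Measurable (ft (gj j)) := by
    intro j
    rw [hftj]
    exact (hone j).1.comp (hsub j)
  have hLj : ∀ j, (∫⁻ ξ, ‖ft (gj j) ξ‖ₑ ^ p) ^ (1 / p) ≤ ENNReal.ofReal (C ^ (1 / p) * M j) := by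
    intro j
    have h1 : ∫⁻ ξ, ‖ft (gj j) ξ‖ₑ ^ p ≤ ENNReal.ofReal (C * M j ^ p) := by
      rw [hftj]
      refine le_trans (le_of_eq ?_) (hone j).2
      exact lintegral_sub_right_eq_self (fun ξ => ‖ft (hr j) ξ‖ₑ ^ p) ((2 * Real.pi)⁻¹ • η j)
    refine (ENNReal.rpow_le_rpow h1 (by positivity)).trans (le_of_eq ?_)
    have hMq : 0 ≤ M j ^ p := Real.rpow_nonneg (hM0 j) p
    rw [ENNReal.ofReal_rpow_of_nonneg (by positivity) (by positivity),
      Real.mul_rpow hC.le hMq, ← Real.rpow_mul (hM0 j), mul_one_div_cancel hp0.ne',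
      Real.rpow_one]
  have hexm : ∀ η : E (k + 1), Measurable fun x : Sph (k + 1) =>
      Complex.exp ((⟪η, (x : E (k + 1))⟫ : ℝ) * I) := by
    intro η
    have h4 : Continuous fun x : Sph (k + 1) =>
      Complex.exp ((⟪η, (x : E (k + 1))⟫ : ℝ) * I) := by fun_prop
    exact h4.measurable
  have hsum : ∀ ξ, ft g ξ = ∑' j, ft (gj j) ξ := by
    intro ξ
    unfold ft
    have hexm2 : Measurable fun x : Sph (k + 1) =>
        Complex.exp (-(2 * Real.pi * ⟪(x : E (k + 1)), ξ⟫ : ℝ) * I) := by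
      have h4 : Continuous fun x : Sph (k + 1) =>
        Complex.exp (-(2 * Real.pi * ⟪(x : E (k + 1)), ξ⟫ : ℝ) * I) := by fun_prop
      exact h4.measurable
    have hen : ∀ (j : ℕ) (x : Sph (k + 1)),
        ‖Complex.exp (-(2 * Real.pi * ⟪(x : E (k + 1)), ξ⟫ : ℝ) * I) * gj j x‖ₑ = ‖hr j x‖ₑ := by
      intro j x
      rw [← ofReal_norm, ← ofReal_norm]
      congr 1
      have h3 : -(((2 * Real.pi * ⟪(x : E (k + 1)), ξ⟫ : ℝ)) : ℂ) * I =
          ((-(2 * Real.pi * ⟪(x : E (k + 1)), ξ⟫) : ℝ) : ℂ) * I := by push_cast; ring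
      rw [norm_mul, h3, Complex.norm_exp_ofReal_mul_I, one_mul, hgj]
      simp only [norm_mul, Complex.norm_exp_ofReal_mul_I, one_mul]
    rw [← integral_tsum]
    · refine integral_congr_ae ?_
      filter_upwards [hg] with x hx
      rw [hx, ← tsum_mul_left]
    · exact fun j => hexm2.aestronglyMeasurable.mul
        ((hexm (η j)).aestronglyMeasurable.mul (hrm j).aestronglyMeasurable)
    · have h5 : ∑' j, ∫⁻ x, ‖Complex.exp (-(2 * Real.pi * ⟪(x : E (k + 1)), ξ⟫ : ℝ) * I) *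
          gj j x‖ₑ ∂(sigma (k + 1)) ≤
          ∑' j, ENNReal.ofReal ((sigma (k + 1)).real univ * M j) := by
        apply ENNReal.tsum_le_tsum
        intro j
        refine le_trans (le_of_eq ?_) (hL1 j)
        exact lintegral_congr fun x => hen j x
      refine (h5.trans_lt ?_).ne
      rw [← ENNReal.ofReal_tsum_of_nonneg (fun j => mul_nonneg measureReal_nonneg (hM0 j))
        (hM.mul_left _)]
      exact ENNReal.ofReal_lt_top
  have hfun : ft g = fun ξ => ∑' j, ft (gj j) ξ := funext hsum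
  have hmeas : Measurable (ft g) := by
    rw [hfun]
    exact Measurable.tsum fun j => hmj j
  have hle : ∫⁻ ξ, ‖ft g ξ‖ₑ ^ p ≤ (ENNReal.ofReal (C ^ (1 / p) * ∑' j, M j)) ^ p := by
    calc ∫⁻ ξ, ‖ft g ξ‖ₑ ^ p ≤ ∫⁻ ξ, (∑' j, ‖ft (gj j) ξ‖ₑ) ^ p := by
          apply lintegral_mono
          intro ξ
          simp only
          rw [hsum]
          exact ENNReal.rpow_le_rpow enorm_tsum_le_tsum_enorm hp0.le
      _ ≤ (∑' j, (∫⁻ ξ, ‖ft (gj j) ξ‖ₑ ^ p) ^ (1 / p)) ^ p :=
          mink volume p hp1 (fun j ξ => ‖ft (gj j) ξ‖ₑ) fun j => (hmj j).enorm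
      _ ≤ (∑' j, ENNReal.ofReal (C ^ (1 / p) * M j)) ^ p :=
          ENNReal.rpow_le_rpow (ENNReal.tsum_le_tsum hLj) hp0.le
      _ = _ := by
          rw [← ENNReal.ofReal_tsum_of_nonneg (fun j => mul_nonneg (by positivity) (hM0 j))
            (hM.mul_left _), tsum_mul_left]
  have hnorm : eLpNorm (ft g) (ENNReal.ofReal p) ≤
      ENNReal.ofReal (C ^ (1 / p) * ∑' j, M j) := by
    rw [eLpNorm_eq_lintegral_rpow_enorm_toReal (by simpa using hp0) ENNReal.ofReal_ne_top,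
      ENNReal.toReal_ofReal hp0.le]
    refine (ENNReal.rpow_le_rpow hle (by positivity)).trans (le_of_eq ?_)
    rw [← ENNReal.rpow_mul, mul_one_div_cancel hp0.ne', ENNReal.rpow_one]
  exact ⟨⟨hmeas.aestronglyMeasurable, hnorm.trans_lt ENNReal.ofReal_lt_top⟩, hnorm⟩

end Pool.Agent.Results.MP_6cbfb8_an.LatitudeRegularDensities
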